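import Pool.Agent.helper74.VD.SpecI

/-!
# Project VD (MP_07c750_an), block A5 (long squeezed beams), part 1: data along long orbits, norms and energy localisation of packets

RULES: as in `helper74/VD/Defs.lean`. Row `vd:XXXX`: file `Pool/Agent/<seat>/VD/XXXX.lean`, `import Pool.Agent.helper62.VD.SpecL`, `set_option autoImplicit false`, namespace `Pool.Agent.VD`, auxiliary lemmas prefixed `XXXX_`, theorem `XXXX_proof (h..) : XXXX_stmt` (rows listed in `from` may be used as hypotheses `(h : YYYY_stmt)`).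
No `convert`, `congr!`, `native_decide`, no double quotes, no `private`.
-/

set_option autoImplicit false

open scoped ContDiff Topology InnerProductSpace ComplexConjugate ENNReal
open MeasureTheory Filter Set

namespace Pool.Agent.VD

open Pool.Agent.VQ (CH)

noncomputable section

/-- the flow for the time `t`, seen in the chart `κ` -/
def fch {Γ : Type} {d : ℕ} [Group Γ] [MulAction Γ (V d)] (Φ : ℝ → P d → P d) (κ : Γ) (t : ℝ) (p : P d) : P d := lft κ⁻¹ (Φ t p)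

/-- **Row ALCH** (chain rule; short; PURE). The columns of `(Yf f p Y0 P0, Pf f p Y0 P0)` are the images of the columns of `(Y0, P0)` under the complexification of the real matrix of `fderiv ℝ f p` in the basis `(e_j, 0)`, `(0, e_j)`; `fderiv (g ∘ f) = (fderiv g).comp (fderiv f)`, matrix product. -/
def ALCH_stmt : Prop := ∀ (d : ℕ) (f g : P d → P d) (p : P d) (Y0 P0 : MC d), DifferentiableAt ℝ f p → DifferentiableAt ℝ g (f p) →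
  Yf (fun q => g (f q)) p Y0 P0 = Yf g (f p) (Yf f p Y0 P0) (Pf f p Y0 P0) ∧ Pf (fun q => g (f q)) p Y0 P0 = Pf g (f p) (Yf f p Y0 P0) (Pf f p Y0 P0) ∧ Yf (fun q => q) p Y0 P0 = Y0 ∧ Pf (fun q => q) p Y0 P0 = P0

/-- **Row ALSY** (Lagrangian data; medium; PURE linear algebra). `Lag.sym` and `Lag.pos` say that the complex bilinear extension of `omg` vanishes on pairs of columns `c_i, c_j`, and the sesquilinear extension `omg (c_j, conj c_i)` is `2 i δ_ij`; both are preserved by a real symplectic map. Entries: `≤ 2 d M L`. Last part: for `u ∈ ℂ^d` `2 i |u|² = (Yu)* Pu - (Pu)* Yu`,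
so `|u| ≤ ‖P‖ |Yu|`: `Y` is invertible, `|Y⁻¹| ≤ C L`, determinants of matrices with entries `≤ C L` are `≤ d! (C L)^d`; for real `w = Y u`: `wᵀ P Y⁻¹ w = (Yu)* Pu` has imaginary part `|u|²`. `Lag 1 1 i`. -/
def ALSY_stmt : Prop := ∀ (d : ℕ) (M : ℝ), ∃ C : ℝ, 1 ≤ C ∧ (∀ (f : P d → P d) (p : P d) (L : ℝ) (Y0 P0 : MC d), 1 ≤ L → (∀ v w, omg (fderiv ℝ f p v) (fderiv ℝ f p w) = omg v w) → ‖fderiv ℝ f p‖ ≤ M → Lag L Y0 P0 → Lag (C * L) (Yf f p Y0 P0) (Pf f p Y0 P0)) ∧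
  (∀ (L : ℝ) (Y P : MC d), 1 ≤ L → Lag L Y P → Y.det ≠ 0 ∧ ‖Y.det‖ ≤ C * L ^ C ∧ ‖Y.det‖⁻¹ ≤ C * L ^ C ∧ (∀ w : V d, 0 ≤ (qf (P * Y⁻¹) w).im) ∧ ∀ i j, ‖(P * Y⁻¹) i j‖ ≤ C * L ^ 2) ∧ Lag 1 (1 : MC d) (Complex.I • 1)

/-- **Row ALPN** (packets in a chart: regularity, sup norm, `L²` norm; short-medium; from AMVI, AHLD). The measure `mv G` is invariant under `γ`, so `γ = 1`; the function is at most `m` in absolute value, supported in a ball of radius `ρ = R^(-1/2+η) ≤ 1` whose volume is `≤ C ρ^d`, `dens G ≤ C` on the ball of radius `r + 1`. -/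
def ALPN_stmt : Prop := ∀ (d : ℕ) (Γ : Type) [Group Γ] [MulAction Γ (V d)] (K : Set (V d)) (k : ℝ) (B : ℕ → ℕ → ℝ) (r : ℝ), ∃ C : ℝ, 1 ≤ C ∧ ∀ G : V d → V d →L[ℝ] V d, FdK Γ K → Cls Γ K k B G →
  ∀ (Kd : ℕ) (η m R : ℝ) (q : P d) (f : V d → ℂ) (γ : Γ), ‖q.1‖ ≤ r → 1 ≤ R → 0 < η → η ≤ 1 / 4 → 0 ≤ m → Pk Kd η m R q f →
    (∀ w, ‖f w‖ ≤ m) ∧ FH (⊥ : Subgroup Γ) univ (fun z => f (γ⁻¹ • z)) ∧ ContDiff ℝ ∞ (fun z => f (γ⁻¹ • z)) ∧ nn G univ (fun z => f (γ⁻¹ • z)) ≤ C * (m ^ 2 * R ^ (-((d : ℝ) / 2) + d * η))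

/-- **Row ALEP** (packets are localised in energy; medium; from AMVI, AHLD, ALPN). `f w = exp (i R ξ·(w-x)) A(w-x)`: `lap f = h^(ij) ∂_ij f + b^j ∂_j f` with bounded `b^j`, so `exp(-i R ..) (lap f + R² (1 + 2 Ep q) f) = R² (2 Ham q - h^(ij)(w) ξ_i ξ_j) A + 2 i R h^(ij) ξ_i ∂_j A + h^(ij) ∂_ij A + b^j (i R ξ_j A + ∂_j A)`
and `|2 Ham q - ⟪IG G w ξ, ξ⟫| ≤ C |w - x| ≤ C R^(-1/2+η)` on the support (`2 Ham q = 1 + 2 Ep q`): all terms are `≤ C m R^(3/2+2η)`. `lap G (φ ∘ γ⁻¹) = (lap G φ) ∘ γ⁻¹` (AMVI). Volume of the support as in ALPN. -/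
def ALEP_stmt : Prop := ∀ (d : ℕ) (Γ : Type) [Group Γ] [MulAction Γ (V d)] (K : Set (V d)) (k : ℝ) (B : ℕ → ℕ → ℝ) (r : ℝ), ∃ C : ℝ, 1 ≤ C ∧ ∀ G : V d → V d →L[ℝ] V d, FdK Γ K → Cls Γ K k B G →
  ∀ (η m R : ℝ) (q : P d) (f : V d → ℂ) (γ : Γ), ‖q.1‖ ≤ r → |Ep G q| ≤ 1 / 4 → 1 ≤ R → 0 < η → η ≤ 1 / 8 → 0 ≤ m → Pk 2 η m R q f →
    nn G univ (fun z => lap G (fun z => f (γ⁻¹ • z)) z + ((R ^ 2 * (1 + 2 * Ep G q) : ℝ) : ℂ) * f (γ⁻¹ • z)) ≤ C * (m ^ 2 * R ^ (3 - (d : ℝ) / 2 + (d + 4) * η))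

/-- **Row ALRC** (chains of unit steps stay near the orbit, in the last chart; medium; from ALFX, ASGF, ACNF). First part: by induction on `n`. Second part: by induction on `n` with the first part. Let `x` be the last but one vertex, `D = dist (lft (x.1⁻¹ * y.1) (Φ (n+1) y.2)) x.2 ≤ C^(n+1) r ≤ 1`.
Both points have base points in the ball `r0 + 1` and `Ham ≤ 2`, so `dist (Φ 1 ..) (Φ 1 x.2) ≤ C1 D` (ACNF), `dist (Φ 1 x.2) (lft (x.1⁻¹ * y'.1) y'.2) < r`, and `κ = y'.1⁻¹ * x.1` maps `lft (x.1⁻¹ * y'.1) y'.2` (base point in a ball of radius `C1 + 1`) to `y'.2` (base point in the ball `r0`): `κ ∈ SG Γ d (..)`, Lipschitz constant from ASGF; `Φ` commutes with `lft` (ALFX). -/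
def ALRC_stmt : Prop := ∀ (d : ℕ) (Γ : Type) [Group Γ] [MulAction Γ (V d)] (K : Set (V d)) (k : ℝ) (B : ℕ → ℕ → ℝ) (r0 : ℝ), FdK Γ K →
  (∀ (G : V d → V d →L[ℝ] V d) (Φ : ℝ → P d → P d) (R r : ℝ) (n : ℕ) (y y' : YS Γ d), RC G Φ r0 r R (n + 1) y y' ↔ ∃ x, RC G Φ r0 r R n y x ∧ St G Φ r0 r R x y') ∧
  ∃ C : ℝ, 1 ≤ C ∧ ∀ (G : V d → V d →L[ℝ] V d) (Φ : ℝ → P d → P d) (R r : ℝ) (n : ℕ) (y y' : YS Γ d), OKA Γ K k B G Φ → 16 ≤ R → 0 ≤ r → C ^ (n + 1) * r ≤ 1 → RC G Φ r0 r R n y y' →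
    dist (lft (y'.1⁻¹ * y.1) (Φ ((n : ℝ) + 1) y.2)) y'.2 ≤ C ^ (n + 1) * r

/-- **Row ALDA** (DATA ALONG LONG ORBITS; medium; from ALCH, ALSY, ALFX, ASGF, ACNF). Induction on `n`. `n = 0`: `κ⁻¹ ∈ SG Γ d (r0 + 1)` and ALSY for `lft κ⁻¹`. Step: `κ0` with `‖κ0⁻¹ • (Φ n p).1‖ ≤ r0 - 1` (`PU.cover`), `f0 = fch Φ κ0 n`; `fch Φ κ (n+1) = lft (κ⁻¹ * κ0) ∘ Φ 1 ∘ f0` (ALFX), `‖(Φ 1 (f0 p)).1‖ ≤ C1` (ACNF), so `κ⁻¹ * κ0 ∈ SG Γ d (..)` and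
`lft (κ⁻¹ * κ0) ∘ Φ 1` is symplectic with bounded derivative at `f0 p`: ALSY, ALCH. Norm of `(f p).2`: ACNF and ASGF (or `Ham`). -/
def ALDA_stmt : Prop := ∀ (d : ℕ) (Γ : Type) [Group Γ] [MulAction Γ (V d)] (K : Set (V d)) (k : ℝ) (B : ℕ → ℕ → ℝ) (r0 : ℝ) (χ : V d → ℝ), FdK Γ K → PU Γ r0 χ → ∃ C : ℝ, 1 ≤ C ∧ ∀ (G : V d → V d →L[ℝ] V d) (Φ : ℝ → P d → P d), OKA Γ K k B G Φ →
  ∀ (p : P d) (n : ℕ) (κ : Γ), ‖p.1‖ ≤ r0 → |Ep G p| ≤ 1 / 8 → ‖(fch Φ κ n p).1‖ ≤ r0 + 1 → Lag (C ^ (n + 1)) (Yf (fch Φ κ n) p 1 (Complex.I • 1)) (Pf (fch Φ κ n) p 1 (Complex.I • 1)) ∧ Ep G (fch Φ κ n p) = Ep G p ∧ ‖(fch Φ κ n p).2‖ ≤ C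

end

end Pool.Agent.VD
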