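import Pool.Agent.helper74.VD.SpecA4
import Pool.Agent.helper62.VD.SpecL

/-!
# Project VD (MP_07c750_an), block A5 (long squeezed beams), part 2: the mass of the rows and the density of the big step kernel

RULES: as in `helper74/VD/Defs.lean`. Row `vd:XXXX`: file `Pool/Agent/<seat>/VD/XXXX.lean`, `import Pool.Agent.helper62.VD.SpecL2`, `set_option autoImplicit false`, namespace `Pool.Agent.VD`, auxiliary lemmas prefixed `XXXX_`, theorem `XXXX_proof (h..) : XXXX_stmt` (rows listed in `from` may be used as hypotheses `(h : YYYY_stmt)`).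
Everything here is in the setting `Λ = ⊥`, `F = univ`, `T = univ` (`Dm ⊥ univ univ`), for ONE index `y`. `C` is a constant which depends on `(d, Γ, K, k, B, r0, χ)` and changes from row to row.
-/

set_option autoImplicit false

open scoped ContDiff Topology InnerProductSpace ComplexConjugate ENNReal
open MeasureTheory Filter Set

namespace Pool.Agent.VD

open Pool.Agent.VQ (CH cmZ)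

noncomputable section

/-- the long beam of the index `y` at the time `n`, in the chart `κ` (relative to the chart of `y`), with the amplitude `a` -/
def LB {Γ : Type} {d : ℕ} [Group Γ] [MulAction Γ (V d)] (G : V d → V d →L[ℝ] V d) (Φ : ℝ → P d → P d) (χ : V d → ℝ) (ch : ℝ → ℝ) (ζ ζ2 R : ℝ) (y : YS Γ d) (n : ℕ) (κ : Γ) (a : ℂ) (z : V d) : ℂ :=
  ((χ y.2.1 * cR d ch ζ R : ℝ) : ℂ) * a * bm G ch ζ2 R (Pf (fch Φ κ n) y.2 1 (Complex.I • 1) * (Yf (fch Φ κ n) y.2 1 (Complex.I • 1))⁻¹) (fch Φ κ n y.2) ((y.1 * κ)⁻¹ • z)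

/-- the amplitude is normalised: `|a|² |det Y| = 1` -/
def Nam {Γ : Type} {d : ℕ} [Group Γ] [MulAction Γ (V d)] (Φ : ℝ → P d → P d) (y : YS Γ d) (n : ℕ) (κ : Γ) (a : ℂ) : Prop :=
  ‖a‖ ^ 2 * ‖(Yf (fch Φ κ n) y.2 1 (Complex.I • 1)).det‖ = 1

/-- **Row ALWT** (ONE BEAM; medium; from ABMP, ABMR, AMVI, ACNF, ALPN, ALEP). `g` is the chart in which the beam is given. ABMP with `ζ = ζ1 = ζ2`, `Kd = 2`: the beam is a packet at `Φ s q` (base point in a bounded set, ACNF), `m = R^(C ζ2)`, the error has `m = R^(-1/2 + C ζ2)`; norms: ALPN (constants and `d η` are absorbed by `R^(ζ2)`); at `s = 0` (`Φ 0 q = q`) ALEP.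
`bt` at the time `0`: `amp = 1`, `Mt = P0 Y0⁻¹` (`Φ 0 = id`: `Yf`, `Pf` of the identity). Regularity, support, equation: ABMR; the Laplacian in the chart `g`: AMVI; the supports are in one compact set (the action of `g` is continuous, `Φ s q` is continuous in `s`). -/
def ALWT_stmt : Prop := ∀ (d : ℕ) (Γ : Type) [Group Γ] [MulAction Γ (V d)] (K : Set (V d)) (k : ℝ) (B : ℕ → ℕ → ℝ) (r : ℝ), FdK Γ K → ∃ C : ℝ, 1 ≤ C ∧ ∀ (ch : ℝ → ℝ) (e ζ2 : ℝ), CH ch → 0 ≤ e → 0 < ζ2 → C * e ≤ ζ2 → C * ζ2 ≤ 1 → ∃ R0 : ℝ, 1 ≤ R0 ∧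
  ∀ (R : ℝ) (G : V d → V d →L[ℝ] V d) (Φ : ℝ → P d → P d) (g : Γ) (q : P d) (Y0 P0 : MC d), R0 ≤ R → OKA Γ K k B G Φ → ‖q.1‖ ≤ r → |Ep G q| ≤ 1 / 4 → Lag (R ^ e) Y0 P0 →
    (∀ s ∈ Icc (0 : ℝ) 1, FH (⊥ : Subgroup Γ) univ (fun z => bt G Φ ch ζ2 R Y0 P0 q s (g⁻¹ • z)) ∧ ContDiff ℝ 2 (fun z => bt G Φ ch ζ2 R Y0 P0 q s (g⁻¹ • z)) ∧ FH (⊥ : Subgroup Γ) univ (fun z => Eb G Φ ch ζ2 R Y0 P0 q s (g⁻¹ • z)) ∧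
      nn G univ (fun z => bt G Φ ch ζ2 R Y0 P0 q s (g⁻¹ • z)) ≤ R ^ (-((d : ℝ) / 2) + C * ζ2) ∧ nn G univ (fun z => Eb G Φ ch ζ2 R Y0 P0 q s (g⁻¹ • z)) ≤ R ^ (-((d : ℝ) / 2) - 1 + C * ζ2)) ∧
    nn G univ (fun z => lap G (fun z => bt G Φ ch ζ2 R Y0 P0 q 0 (g⁻¹ • z)) z + ((R ^ 2 * (1 + 2 * Ep G q) : ℝ) : ℂ) * bt G Φ ch ζ2 R Y0 P0 q 0 (g⁻¹ • z)) ≤ R ^ (3 - (d : ℝ) / 2 + C * ζ2) ∧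
    (∀ w, bt G Φ ch ζ2 R Y0 P0 q 0 w = bm G ch ζ2 R (P0 * Y0⁻¹) q w) ∧
    (∃ b : ℝ, ∀ s ∈ Icc (0 : ℝ) 1, ∀ z : V d, (bt G Φ ch ζ2 R Y0 P0 q s (g⁻¹ • z) ≠ 0 ∨ Eb G Φ ch ζ2 R Y0 P0 q s (g⁻¹ • z) ≠ 0) → ‖z‖ ≤ b) ∧
    Continuous (fun x : ℝ × V d => bt G Φ ch ζ2 R Y0 P0 q x.1 (g⁻¹ • x.2)) ∧ Continuous (fun x : ℝ × V d => lap G (fun z => bt G Φ ch ζ2 R Y0 P0 q x.1 (g⁻¹ • z)) x.2) ∧ Continuous (fun x : ℝ × V d => Eb G Φ ch ζ2 R Y0 P0 q x.1 (g⁻¹ • x.2)) ∧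
    ∀ (s : ℝ) (z : V d), HasDerivAt (fun s => bt G Φ ch ζ2 R Y0 P0 q s (g⁻¹ • z)) (-(Complex.I * Hop G R (fun z => bt G Φ ch ζ2 R Y0 P0 q s (g⁻¹ • z)) z) + -(Complex.I * Eb G Φ ch ζ2 R Y0 P0 q s (g⁻¹ • z))) s

/-- **Row ALST** (RE-EXPANSION OF A BEAM FOR ONE UNIT OF TIME; medium-long; from ALWT, AEND, AFDD, AFBD, AFMD, AQAD, AELD, AQSD; compare VQ row VAW, file VQ/VAW.lean). `φ = bt(0)` in the chart `g`, `v = QF φ` (`FP ⊥ univ`, AQSD), `w s = sF (fP s) v - bt(s)`. (1) `w 0 = (Qs v - φ) + sF (fP 0 - fG) v` (`Qs v = sF fG v`: `pF fG = Gp`); the second term has norm `≤ R^(-M) ‖v‖` (AFMD, AFBD).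
AQAD third claim and AELD second part (`c = 2`, `E0 = Ep q`, `7/4 + 1/16 ≤ 2`) with the third line of ALWT: `nn (Qs v - φ) ≤ 8 (R^(-1/2) R^(-d/2 + Cζ2) + R^(1/2 + 9ζ) (R^(-4) R^(3 - d/2 + Cζ2) + R^(-1) R^(-d/2 + Cζ2))) ≤ R^(-d/2 - 1/2 + C'ζ2)`.
(2) `∂_s w = -i Hop w + e`, `e = -i sF (fE s) v + i Eb(s)`, `nn (sF (fE s) v) ≤ R^(-1 + Cζ1) nP v`, `nP v ≤ 2 nn φ` (AQAD first claim): `nn e ≤ R^(-d/2 - 1 + Cζ2)`. AEND in the setting `⊥`. (`Kd` from AFBD for `η = C ζ1`, then AFMD with this `Kd`.) -/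
def ALST_stmt : Prop := ∀ (d : ℕ) (Γ : Type) [Group Γ] [MulAction Γ (V d)] (K : Set (V d)) (k : ℝ) (B : ℕ → ℕ → ℝ) (r0 : ℝ) (χ : V d → ℝ), FdK Γ K → PU Γ r0 χ → ∃ C : ℝ, 1 ≤ C ∧ ∀ (ch : ℝ → ℝ) (e ζ ζ1 ζ2 : ℝ), CH ch → 0 ≤ e → 0 < ζ → ζ ≤ ζ1 → ζ1 ≤ ζ2 → C * e ≤ ζ2 → C * ζ2 ≤ 1 → ∃ R0 : ℝ, 1 ≤ R0 ∧
  ∀ (R : ℝ) (G : V d → V d →L[ℝ] V d) (Φ : ℝ → P d → P d) (g : Γ) (q : P d) (Y0 P0 : MC d), R0 ≤ R → OKA Γ K k B G Φ → ‖q.1‖ ≤ r0 + 1 → |Ep G q| ≤ 7 / 4 * R ^ (-(1 / 4) : ℝ) → Lag (R ^ e) Y0 P0 →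
    FH (⊥ : Subgroup Γ) univ (fun z => bm G ch ζ2 R (P0 * Y0⁻¹) q (g⁻¹ • z)) ∧ nn G univ (fun z => bm G ch ζ2 R (P0 * Y0⁻¹) q (g⁻¹ • z)) ≤ R ^ (-((d : ℝ) / 2) + C * ζ2) ∧
    nn G univ (fun z => sF G r0 R (fP G Φ χ ch ζ ζ1 R 1) (QF (Γ := Γ) G χ ch ζ R (fun z => bm G ch ζ2 R (P0 * Y0⁻¹) q (g⁻¹ • z))) z - bt G Φ ch ζ2 R Y0 P0 q 1 (g⁻¹ • z)) ≤ R ^ (-((d : ℝ) / 2) - 1 / 2 + C * ζ2)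

/-- **Row ALCC** (CHANGE OF THE CHART AFTER ONE UNIT OF TIME; short-medium; from ABMA, ABMC, ALCH, ALFX, ACNF, ASGF, ALPN). `bt(1) = a1 exp (i ..) bm (Mt) (Φ 1 q)` with `a1 = amp`, data `Y1 = Yf (Φ 1) q Y0 P0`, `P1`, `Lag (C R^e)`, `|a1|² |det Y1| = |det Y0|` (ABMA). `κ⁻¹` maps `(Φ 1 q).1` (bounded, ACNF) into the ball `r + 1`, so `κ⁻¹ ∈ SG Γ d r1` with a fixed `r1`.
ABMC for `κ⁻¹`, `Φ 1 q`, `Y1, P1`, with the exponent `e' = ζ2 / C1` (`C R^e ≤ R^e'` for large `R` as `e ≤ ζ2 / (2 C1)`), evaluated at `w = (g κ)⁻¹ z` (`κ w = g⁻¹ z`): `a = a1 exp (i ..) |det|^(-1/2)`, `Yf (lft κ⁻¹) (Φ 1 q) Y1 P1 = Yf (fch Φ κ 1) q Y0 P0` (ALCH), `|det|` cancels. The error is a packet at `fch Φ κ 1 q` of size `R^(-1/2 + Cζ2)` times `|a1| ≤ C R^(Ce)`: ALPN. -/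
def ALCC_stmt : Prop := ∀ (d : ℕ) (Γ : Type) [Group Γ] [MulAction Γ (V d)] (K : Set (V d)) (k : ℝ) (B : ℕ → ℕ → ℝ) (r : ℝ), FdK Γ K → 0 ≤ r → ∃ C : ℝ, 1 ≤ C ∧ ∀ (ch : ℝ → ℝ) (e ζ2 : ℝ), CH ch → 0 ≤ e → 0 < ζ2 → C * e ≤ ζ2 → C * ζ2 ≤ 1 → ∃ R0 : ℝ, 1 ≤ R0 ∧
  ∀ (R : ℝ) (G : V d → V d →L[ℝ] V d) (Φ : ℝ → P d → P d) (g κ : Γ) (q : P d) (Y0 P0 : MC d), R0 ≤ R → OKA Γ K k B G Φ → ‖q.1‖ ≤ r → |Ep G q| ≤ 1 / 4 → ‖(fch Φ κ 1 q).1‖ ≤ r → Lag (R ^ e) Y0 P0 →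
    ∃ a : ℂ, ‖a‖ ^ 2 * ‖(Yf (fch Φ κ 1) q Y0 P0).det‖ = ‖Y0.det‖ ∧
      nn G univ (fun z => bt G Φ ch ζ2 R Y0 P0 q 1 (g⁻¹ • z) - a * bm G ch ζ2 R (Pf (fch Φ κ 1) q Y0 P0 * (Yf (fch Φ κ 1) q Y0 P0)⁻¹) (fch Φ κ 1 q) ((g * κ)⁻¹ • z)) ≤ R ^ (-((d : ℝ) / 2) - 1 + C * ζ2)

/-- **Row ALON** (ONE STEP OF THE LONG BEAM; medium; from ALST, ALCC, ALDA, ALSY, ALCH, ALFX, ABRD). `q = fch Φ κ n y.2`, data `Y, P` of `fch Φ κ n`: `Lag (C1^(n+1)) ⊆ Lag (R^e)` (ALDA). `fch Φ κ' (n+1) = fch Φ (κ⁻¹ κ') 1 ∘ fch Φ κ n` (`Φ` commutes with `lft`), so ALCH identifies the new data, `g = y.1 κ`, `g κ⁻¹ κ' = y.1 κ'`. `LB = (χ cR a) bm`: `sF`, `QF` are linear in the function (a constant factor);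
`|χ cR a|² ≤ R^(3d/2) / |det Y| ≤ R^(3d/2 + C e)` (ABRD, ALSY). `a' = a a_ALCC`. -/
def ALON_stmt : Prop := ∀ (d : ℕ) (Γ : Type) [Group Γ] [MulAction Γ (V d)] (K : Set (V d)) (k : ℝ) (B : ℕ → ℕ → ℝ) (r0 : ℝ) (χ : V d → ℝ), FdK Γ K → PU Γ r0 χ → ∃ C C1 : ℝ, 1 ≤ C ∧ 1 ≤ C1 ∧ ∀ (ch : ℝ → ℝ) (e ζ ζ1 ζ2 : ℝ), CH ch → 0 ≤ e → 0 < ζ → ζ ≤ ζ1 → ζ1 ≤ ζ2 → C * e ≤ ζ2 → C * ζ2 ≤ 1 → ∃ R0 : ℝ, 1 ≤ R0 ∧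
  ∀ (R : ℝ) (G : V d → V d →L[ℝ] V d) (Φ : ℝ → P d → P d) (y : YS Γ d) (n : ℕ) (κ κ' : Γ) (a : ℂ), R0 ≤ R → OKA Γ K k B G Φ → y ∈ GW Γ G r0 (7 / 4) R → C1 ^ (n + 2) ≤ R ^ e → ‖(fch Φ κ n y.2).1‖ ≤ r0 + 1 → ‖(fch Φ κ' (n + 1 : ℕ) y.2).1‖ ≤ r0 + 1 → Nam Φ y n κ a →
    FH (⊥ : Subgroup Γ) univ (LB G Φ χ ch ζ ζ2 R y n κ a) ∧ nn G univ (LB G Φ χ ch ζ ζ2 R y n κ a) ≤ R ^ ((d : ℝ) + C * ζ2) ∧ (∀ z, ‖LB G Φ χ ch ζ ζ2 R y n κ a z‖ ≤ C * R ^ (3 * (d : ℝ) / 4) * ‖a‖) ∧ ‖a‖ ^ 2 * R ^ (-(C * ζ2)) ≤ 1 ∧ R ^ (-(C * ζ2)) ≤ ‖a‖ ^ 2 ∧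
    ∃ a' : ℂ, Nam Φ y (n + 1) κ' a' ∧
      nn G univ (fun z => sF G r0 R (fP G Φ χ ch ζ ζ1 R 1) (QF (Γ := Γ) G χ ch ζ R (LB G Φ χ ch ζ ζ2 R y n κ a)) z - LB G Φ χ ch ζ ζ2 R y (n + 1) κ' a' z) ≤ R ^ ((d : ℝ) - 1 / 2 + C * ζ2)

/-- **Row ALB0** (THE FIRST STEP; medium; from AULD, AUMD, AQAD, ABMP, ALPN, ALCC, ALSY, ABRD, AVOL, ADMD). For `x ∈ GW 2`: `conj (us y x) = 1[St] QF (psi_y(1))(x)`; where `St` fails the value of `QF (psi_y(1))(x)` is `≤ R^(-M)` (AULD, `C z1 ≤ z2`) and it vanishes unless `y.1⁻¹ x.1 ∈ SG Γ d C`, a set of measure `≤ C` (AVOL). `psi_y(1) = χ cR bt(A.z1)(1)`; the difference to `χ cR bt(ζ2)(1)` is a packet of size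
`R^(-M)` (ABMP, fifth claim, `Y0 = 1`, `P0 = i`, `e = 0`), then AQAD first claim; ALCC with `g = y.1`, `q = y.2`: the beam in the chart `κ`. -/
def ALB0_stmt : Prop := ∀ (d : ℕ) (Γ : Type) [Group Γ] [MulAction Γ (V d)] (K : Set (V d)) (k : ℝ) (B : ℕ → ℕ → ℝ) (r0 : ℝ) (χ : V d → ℝ), FdK Γ K → PU Γ r0 χ → ∃ C : ℝ, 1 ≤ C ∧ ∀ (ch : ℝ → ℝ) (A : Par) (ζ2 : ℝ), CH ch → Adm C A → A.z1 ≤ ζ2 → C * ζ2 ≤ 1 → ∃ R0 : ℝ, 1 ≤ R0 ∧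
  ∀ (R : ℝ) (G : V d → V d →L[ℝ] V d) (Φ : ℝ → P d → P d) (y : YS Γ d) (κ : Γ), R0 ≤ R → OKA Γ K k B G Φ → y ∈ GW Γ G r0 (7 / 4) R → ‖(fch Φ κ 1 y.2).1‖ ≤ r0 + 1 →
    ∃ a : ℂ, Nam Φ y 1 κ a ∧ nP G r0 univ 2 R (fun x => conj (us G Φ r0 χ ch A R y x) - QF G χ ch A.z R (LB G Φ χ ch A.z ζ2 R y 1 κ a) x) ≤ R ^ ((d : ℝ) - 1 / 2 + C * ζ2)

/-- **Row ALIN** (INDUCTION; medium; from ALON, ALB0, ATSD, AUMD, AQAD, AQSD, AVOL). `v_k = conj (usn k y ·)` is `FP ⊥ univ` (`KY`), `v_(k+1)(q) = ∫ v_k(x) conj (us x q) dx = T v_k (q)` (AUMD: `usn (k+1) = cmZ (usn k) us`). With `β = √nP`: `β (T v) ≤ (1 + R^(-1/5)) β v`, `β (T v - QF (sF fP v)) ≤ R^(-4) β v` (ATSD, third and fourth part), `β (QF φ) ≤ 2 √nn φ` (AQAD).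
`e_k = sup over the charts κ of β (v_k - QF (LB (k+1) κ a))` (for the best `a`): choose `κ0` with `‖κ0⁻¹ • (Φ (k+1) y.2).1‖ ≤ r0 - 1` (`PU.cover`), then ALON from `(k+1, κ0)` to `(k+2, κ)`: `e_(k+1) ≤ (1 + R^(-1/5)) e_k + R^(-4) R^(d/2 + Cζ2) + 2 R^((d - 1/2 + Cζ2)/2)`.
`k ≤ e2 log R`, `(1 + R^(-1/5))^k ≤ 2`: `e_k² ≤ R^(d - 1/2 + C'ζ2)`. `e` is chosen with `C1^(A.n R + 3) ≤ R^e`: `e = 2 A.e2 log C1` (and `C e ≤ ζ2`: this is the hypothesis `C * A.e2 ≤ ζ2`). -/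
def ALIN_stmt : Prop := ∀ (d : ℕ) (Γ : Type) [Group Γ] [MulAction Γ (V d)] (K : Set (V d)) (k : ℝ) (B : ℕ → ℕ → ℝ) (r0 : ℝ) (χ : V d → ℝ), FdK Γ K → PU Γ r0 χ → ∃ C : ℝ, 1 ≤ C ∧ ∀ (ch : ℝ → ℝ) (A : Par) (ζ2 : ℝ), CH ch → Adm C A → A.z1 ≤ ζ2 → C * A.e2 ≤ ζ2 → C * ζ2 ≤ 1 → ∃ R0 : ℝ, 1 ≤ R0 ∧
  ∀ (R : ℝ) (G : V d → V d →L[ℝ] V d) (Φ : ℝ → P d → P d) (y : YS Γ d) (j : ℕ) (κ : Γ), R0 ≤ R → OKA Γ K k B G Φ → y ∈ GW Γ G r0 (7 / 4) R → j ≤ A.n R → ‖(fch Φ κ (j + 1 : ℕ) y.2).1‖ ≤ r0 + 1 →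
    ∃ a : ℂ, Nam Φ y (j + 1) κ a ∧ nP G r0 univ 2 R (fun x => conj (usn G Φ r0 χ ch A R j y x) - QF G χ ch A.z R (LB G Φ χ ch A.z ζ2 R y (j + 1) κ a) x) ≤ R ^ ((d : ℝ) - 1 / 2 + C * ζ2)

/-- **Row A9DD** (THE DENSITY OF THE BIG STEP; medium-long; from ALIN, ALON, ALRC, ALDA, ALSY, ALB0, AULD, AUSD, AUMD, AQSD, AFRD, AFMD, AVOL). `κ = y.1⁻¹ y'.1`, `n = A.n R` (`n ≥ 1` for large `R`). If `ub y y' ≠ 0` then `RC n y y'` (AUMD) and by ALRC `fch Φ κ (n+1) y.2` is within `1` of `y'.2` (`C^(n+1) r ≤ 1`), so `κ` is an admissible chart. `conj (ub y y') = ∫ v(x) conj (us x y') dx`, `v = conj (usn (n-1) y ·)`.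
`κ0` a chart with `‖κ0⁻¹ • (Φ n y.2).1‖ ≤ r0 - 1`; `v = QF (LB n κ0 a) + u` on the window, `nP u ≤ R^(d - 1/2 + Cζ2)` (ALIN for `j = n - 1`): `|∫ u conj us| ≤ √nP u · R^((d + C z2)/2)` (AUSD, Cauchy-Schwarz). For `φ = LB n κ0 a`: `∫ QF φ (x) conj (us x y') dx`, drop the condition `St` (AULD: `R^(-M)`, support of bounded measure, `‖QF φ‖ ≤ R^(2d)`), Fubini: `= ∫ sF (fP 1) (QF φ) conj (Gp y') dmv`.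
By ALON this is `∫ LB (n+1) κ a' conj (Gp y') + error`, error `≤ R^((d - 1/2 + Cζ2)/2) √(nn Gp) `, `nn Gp ≤ (R/2π)^d`; `|∫ LB conj Gp| ≤ sup |LB| ∫ |Gp| ≤ C R^(3d/4) ‖a'‖ R^(d/4 + A.z)` (ALON for `n + 1` (third claim), AQSD). Multiply by `|det Y| = ‖a'‖^(-2) ≤ R^(C ζ2)`. Take `ζ2 = 1/C2` with a large constant `C2` (`C A.e2 ≤ 1/C2` and `A.z1 ≤ 1/C2` by `Adm`). -/
def A9DD_stmt : Prop := ∀ (d : ℕ) (Γ : Type) [Group Γ] [MulAction Γ (V d)] (K : Set (V d)) (k : ℝ) (B : ℕ → ℕ → ℝ) (r0 : ℝ) (χ : V d → ℝ), FdK Γ K → PU Γ r0 χ → ∃ C : ℝ, 1 ≤ C ∧ ∀ (ch : ℝ → ℝ) (A : Par), CH ch → Adm C A → ∃ R0 : ℝ, 1 ≤ R0 ∧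
  ∀ (R : ℝ) (G : V d → V d →L[ℝ] V d) (Φ : ℝ → P d → P d) (y y' : YS Γ d), R0 ≤ R → OKA Γ K k B G Φ → y ∈ GW Γ G r0 (3 / 2) R →
    ‖ub G Φ r0 χ ch A R y y'‖ ^ 2 * ‖(Yf (fun q => lft (y.1⁻¹ * y'.1)⁻¹ (Φ (A.tu R) q)) y.2 1 (Complex.I • 1)).det‖ ≤ R ^ (2 * (d : ℝ) + C * A.z2)

/-- **Row AMAD** (THE MASS OF THE ROWS; medium; from ALWT, AEND, AQAD, AQSD, ABMP, ALPN, ALSY, AUMD, AUSD, ATSD, AFMD). `∫ |us y x|² dx ≤ nP (QF (psi_y(1))) ≤ (1 + R^(-1/4)) nn (psi_y(1))`. Energy estimate AEND for the single beam `psi_y(s) = χ cR bt(s)` in the chart `y.1` (ALWT with `Y0 = 1`, `P0 = i`, `e = 0`, `ζ2 = A.z1`): `√nn psi_y(1) ≤ √nn psi_y(0) + R^(3d/4) R^((-d/2 - 1 + Cz1)/2)`;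
`psi_y(0) - Gp y` is a packet of size `R^(-M)` (AFMD, fourth claim), `nn (Gp y) = χ² (R/2π)^d` (AQSD). Then `v_k = conj (usn k y ·)`, `v_(k+1) = T v_k` and `nP (T v) ≤ (1 + R^(-1/5))² nP v` (ATSD fourth part), `k ≤ e2 log R`. Sup bound: Cauchy-Schwarz with AUSD. If `y ∉ GW 2` everything vanishes. -/
def AMAD_stmt : Prop := ∀ (d : ℕ) (Γ : Type) [Group Γ] [MulAction Γ (V d)] (K : Set (V d)) (k : ℝ) (B : ℕ → ℕ → ℝ) (r0 : ℝ) (χ : V d → ℝ), FdK Γ K → PU Γ r0 χ → ∃ C : ℝ, 1 ≤ C ∧ ∀ (ch : ℝ → ℝ) (A : Par), CH ch → Adm C A → ∃ R0 : ℝ, 1 ≤ R0 ∧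
  ∀ (R : ℝ) (G : V d → V d →L[ℝ] V d) (Φ : ℝ → P d → P d) (y : YS Γ d) (j : ℕ), R0 ≤ R → OKA Γ K k B G Φ → j ≤ A.n R →
    ∫⁻ x, ‖usn G Φ r0 χ ch A R j y x‖ₑ ^ 2 ∂mY Γ d ≤ ENNReal.ofReal ((1 + R ^ (-(1 / 7) : ℝ)) * (R / (2 * Real.pi)) ^ d) ∧ ∀ x, ‖usn G Φ r0 χ ch A R j y x‖ ≤ R ^ ((d : ℝ) + 1)

end

end Pool.Agent.VD
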