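import Pool.Agent.helper11.VD.Spec3d
import Pool.Agent.helper62.VD.SpecL2

/-!
# Project VD (MP_07c750_an), block A5: the interface statement `I4D` from `AUMD` and `AMAD`
-/

set_option autoImplicit false

open scoped ContDiff Topology InnerProductSpace ENNReal ComplexConjugate
open MeasureTheory Filter Set

namespace Pool.Agent.VD

open Pool.Agent.VQ (CH)

theorem AI4D_mono {C C' : ℝ} {A : Par} (h : C ≤ C') (h0 : 1 ≤ C) (hA : Adm C' A) : Adm C A := by
  have hz1 : 0 < A.z1 := lt_of_lt_of_le (mul_pos (by linarith) hA.z) hA.z1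
  have hz2 : 0 < A.z2 := lt_of_lt_of_le (mul_pos (by linarith) hz1) hA.z2
  exact ⟨hA.e2, (mul_le_mul_of_nonneg_right h hA.e2.le).trans hA.e2', hA.z, (mul_le_mul_of_nonneg_right h hA.z.le).trans hA.z1,
    (mul_le_mul_of_nonneg_right h hz1.le).trans hA.z2, (mul_le_mul_of_nonneg_right h hz2.le).trans hA.up⟩

theorem AI4D_proof (h1 : AUMD_stmt) (h2 : AMAD_stmt) : I4D_stmt := by
  intro d Γ _ _ K r0 χ ch k B hd hK hP hch
  obtain ⟨C1, hC1, H1⟩ := h1 d Γ K k B r0 χ hK hP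
  obtain ⟨C2, hC2, H2⟩ := h2 d Γ K k B r0 χ hK hP
  refine ⟨max C1 C2, C1, le_max_of_le_left hC1, fun A hA => ?_⟩
  obtain ⟨R1, hR1, H1⟩ := H1 ch A hch (AI4D_mono (le_max_left _ _) hC1 hA)
  obtain ⟨R2, hR2, H2⟩ := H2 ch A hch (AI4D_mono (le_max_right _ _) hC2 hA)
  refine ⟨1 / 7, max R1 R2, by norm_num, le_max_of_le_left hR1, fun R G Φ hR hG hΦ => ?_⟩
  have hok : OKA Γ K k B G Φ := ⟨hK, hG, hΦ⟩
  obtain ⟨-, hky, -, hrc, -⟩ := H1 R G Φ ((le_max_left _ _).trans hR) hok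
  have hR1' : 1 ≤ R := hR1.trans ((le_max_left _ _).trans hR)
  refine ⟨hky (A.n R), fun y y' => ?_, fun y y' h => ?_, fun y => ?_⟩
  · refine ((H2 R G Φ y (A.n R) ((le_max_right _ _).trans hR) hok le_rfl).2 y').trans ?_
    rw [← Real.rpow_natCast]
    refine Real.rpow_le_rpow_of_exponent_le hR1' ?_
    have : (2 : ℝ) ≤ d := by exact_mod_cast hd
    push_cast
    linarith
  · have := hrc (A.n R) y y' h
    exact ⟨this.2.2.2, this.1⟩
  · refine le_trans ?_ (H2 R G Φ y (A.n R) ((le_max_right _ _).trans hR) hok le_rfl).1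
    exact lintegral_mono' Measure.restrict_le_self le_rfl

end Pool.Agent.VD
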