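import Pool.Agent.helper62.VD.SpecL2
import Pool.Agent.helper73.VD.ATSD

/-!
# Project VD (MP_07c750_an), block A5: row ALIN (induction for the long beams)
-/

set_option autoImplicit false

open scoped ContDiff Topology InnerProductSpace ComplexConjugate ENNReal
open MeasureTheory Filter Set

namespace Pool.Agent.VD

open Pool.Agent.VQ (CH cmZ)

noncomputable section

theorem ALIN_mono {C C' : ℝ} {A : Par} (h : C ≤ C') (h0 : 1 ≤ C) (hA : Adm C' A) : Adm C A := by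
  have hz1 : 0 < A.z1 := lt_of_lt_of_le (mul_pos (by linarith) hA.z) hA.z1
  have hz2 : 0 < A.z2 := lt_of_lt_of_le (mul_pos (by linarith) hz1) hA.z2
  exact ⟨hA.e2, (mul_le_mul_of_nonneg_right h hA.e2.le).trans hA.e2', hA.z, (mul_le_mul_of_nonneg_right h hA.z.le).trans hA.z1,
    (mul_le_mul_of_nonneg_right h hz1.le).trans hA.z2, (mul_le_mul_of_nonneg_right h hz2.le).trans hA.up⟩

/-- linearity of the packet coefficients -/
theorem ALIN_QF {d : ℕ} {Γ : Type} [Group Γ] [MulAction Γ (V d)] {G : V d → V d →L[ℝ] V d} {χ : V d → ℝ} {ch : ℝ → ℝ} {ζ R r0 : ℝ}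
    (hfin : ∀ S : Set (V d), IsCompact S → mv G S < ⊤) (hsm : ∀ γ : Γ, ContDiff ℝ ∞ fun x : V d => γ • x) (y : YS Γ d)
    (hc : Continuous fun z => Gp G χ ch ζ R y z) (hs : ∀ z, Gp G χ ch ζ R y z ≠ 0 → ‖y.1⁻¹ • z‖ ≤ r0) {φ ψ : V d → ℂ} (hφ : Continuous φ) (hψ : Continuous ψ) :
    QF G χ ch ζ R (fun z => φ z - ψ z) y = QF G χ ch ζ R φ y - QF G χ ch ζ R ψ y := by
  have : IsFiniteMeasureOnCompacts (mv G) := ⟨fun K hK => hfin K hK⟩
  have hi : ∀ u : V d → ℂ, Continuous u → Integrable (fun z => u z * conj (Gp G χ ch ζ R y z)) (mv G) := by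
    intro u hu
    have hK : IsCompact ((fun x : V d => y.1 • x) '' Metric.closedBall (0 : V d) r0) :=
      (isCompact_closedBall _ _).image (hsm y.1).continuous
    have h3 : HasCompactSupport (fun z => u z * conj (Gp G χ ch ζ R y z)) := by
      refine HasCompactSupport.intro hK fun z hz => ?_
      by_contra h0
      have h1 : Gp G χ ch ζ R y z ≠ 0 := by
        intro h2
        rw [h2, map_zero, mul_zero] at h0
        exact h0 rfl
      refine hz ⟨y.1⁻¹ • z, mem_closedBall_zero_iff.2 (hs z h1), ?_⟩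
      simp
    exact (hu.mul (Complex.continuous_conj.comp hc)).integrable_of_hasCompactSupport h3
  unfold QF
  rw [← integral_sub (hi φ hφ) (hi ψ hψ)]
  congr 1
  funext z
  ring

/-- rows and columns of kernels -/
theorem ALIN_row {d : ℕ} {Γ : Type} [Group Γ] {K : YS Γ d → YS Γ d → ℂ} (hK : KY K) (y : YS Γ d) : FP (⊥ : Subgroup Γ) univ (fun x => conj (K y x)) := by
  classical
  obtain ⟨b, hb⟩ := hK.bdd
  obtain ⟨S, hS⟩ := hK.range
  refine ⟨Complex.continuous_conj.measurable.comp (hK.meas.comp measurable_prodMk_left), ⟨b, fun x => ?_⟩, fun γ hγ x => ?_, ⟨S.image (fun s => y.1 * s), fun x _ hx => ?_⟩⟩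
  · rw [RCLike.norm_conj]
    exact hb y x
  · rw [Subgroup.mem_bot.1 hγ, one_smul]
  · refine Finset.mem_image.2 ⟨y.1⁻¹ * x.1, hS y x (fun h => hx (by rw [h, map_zero])), ?_⟩
    group

theorem ALIN_col {d : ℕ} {Γ : Type} [Group Γ] {K : YS Γ d → YS Γ d → ℂ} (hK : KY K) (q : YS Γ d) : FP (⊥ : Subgroup Γ) univ (fun x => K x q) := by
  classical
  obtain ⟨b, hb⟩ := hK.bdd
  obtain ⟨S, hS⟩ := hK.range
  refine ⟨hK.meas.comp measurable_prodMk_right, ⟨b, fun x => hb x q⟩, fun γ hγ x => ?_, ⟨S.image (fun s => q.1 * s⁻¹), fun x _ hx => ?_⟩⟩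
  · rw [Subgroup.mem_bot.1 hγ, one_smul]
  · refine Finset.mem_image.2 ⟨x.1⁻¹ * q.1, hS x q hx, ?_⟩
    group

/-- products are integrable -/
theorem ALIN_int {d : ℕ} {Γ : Type} [Group Γ] [MulAction Γ (V d)] (G : V d → V d →L[ℝ] V d) (r0 R : ℝ)
    (hli : ∀ f : YS Γ d → ENNReal, Measurable f → ∫⁻ y, f y ∂mY Γ d = ∑' γ : Γ, ∫⁻ p : P d, f (γ, p))
    (hGW : MeasurableSet (GW Γ G r0 2 R)) (hvol : volume {p : P d | ‖p.1‖ ≤ r0 ∧ |Ep G p| ≤ 2 * R ^ (-(1 / 4) : ℝ)} < ⊤)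
    {w u : YS Γ d → ℂ} (hw : FP (⊥ : Subgroup Γ) univ w) (hu : FP (⊥ : Subgroup Γ) univ u) (hu0 : ∀ x, u x ≠ 0 → x ∈ GW Γ G r0 2 R) :
    Integrable (fun x => w x * conj (u x)) (mY Γ d) := by
  have e0 : DT d (univ : Set Γ) ∩ GW Γ G r0 2 R = GW Γ G r0 2 R := by
    ext x
    exact ⟨fun h => h.2, fun h => ⟨mem_univ _, h⟩⟩
  have i1 := ATSD_int G r0 R ⊥ univ hli hGW hvol (fun T' => ATSD_DT T') w hw
  have i2 := ATSD_int G r0 R ⊥ univ hli hGW hvol (fun T' => ATSD_DT T') u hu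
  rw [e0] at i1 i2
  have hm : Measurable (fun x => w x * conj (u x)) := hw.meas.mul (Complex.continuous_conj.measurable.comp hu.meas)
  have i3 : IntegrableOn (fun x => w x * conj (u x)) (GW Γ G r0 2 R) (mY Γ d) := by
    refine Integrable.mono' (i1.add i2) hm.aestronglyMeasurable (Eventually.of_forall fun x => ?_)
    show ‖w x * conj (u x)‖ ≤ ‖w x‖ ^ 2 + ‖u x‖ ^ 2
    rw [norm_mul, RCLike.norm_conj]
    nlinarith [sq_nonneg (‖w x‖ - ‖u x‖), sq_nonneg ‖w x‖, sq_nonneg ‖u x‖, norm_nonneg (w x), norm_nonneg (u x)]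
  refine (integrableOn_iff_integrable_of_support_subset fun x hx => ?_).1 i3
  refine hu0 x fun h => hx ?_
  show w x * conj (u x) = 0
  rw [h, map_zero, mul_zero]

theorem ALIN_three {d : ℕ} {Γ : Type} [Group Γ] [MulAction Γ (V d)] (G : V d → V d →L[ℝ] V d) (r0 R : ℝ) (T : Set Γ) (w x y z : YS Γ d → ℂ)
    (hw : ∀ q, w q = x q + y q + z q)
    (hx : IntegrableOn (fun y => ‖x y‖ ^ 2) (DT d T ∩ GW Γ G r0 2 R) (mY Γ d)) (hy : IntegrableOn (fun q => ‖y q‖ ^ 2) (DT d T ∩ GW Γ G r0 2 R) (mY Γ d))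
    (hz : IntegrableOn (fun y => ‖z y‖ ^ 2) (DT d T ∩ GW Γ G r0 2 R) (mY Γ d)) :
    nP G r0 T 2 R w ≤ 3 * nP G r0 T 2 R x + 3 * nP G r0 T 2 R y + 3 * nP G r0 T 2 R z := by
  have e1 : 3 * nP G r0 T 2 R x + 3 * nP G r0 T 2 R y + 3 * nP G r0 T 2 R z = ∫ q in DT d T ∩ GW Γ G r0 2 R, (3 * ‖x q‖ ^ 2 + 3 * ‖y q‖ ^ 2 + 3 * ‖z q‖ ^ 2) ∂mY Γ d := by
    unfold nP
    have h1 : Integrable (fun q => 3 * ‖x q‖ ^ 2) ((mY Γ d).restrict (DT d T ∩ GW Γ G r0 2 R)) := hx.const_mul _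
    have h2 : Integrable (fun q => 3 * ‖y q‖ ^ 2) ((mY Γ d).restrict (DT d T ∩ GW Γ G r0 2 R)) := hy.const_mul _
    have h3 : Integrable (fun q => 3 * ‖z q‖ ^ 2) ((mY Γ d).restrict (DT d T ∩ GW Γ G r0 2 R)) := hz.const_mul _
    have h12 : Integrable (fun q => 3 * ‖x q‖ ^ 2 + 3 * ‖y q‖ ^ 2) ((mY Γ d).restrict (DT d T ∩ GW Γ G r0 2 R)) := h1.add h2
    rw [integral_add h12 h3, integral_add h1 h2, integral_const_mul, integral_const_mul, integral_const_mul]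
  rw [e1]
  refine integral_mono_of_nonneg (Eventually.of_forall fun p => by positivity) (((hx.const_mul _).add (hy.const_mul _)).add (hz.const_mul _)) (Eventually.of_forall fun q => ?_)
  show ‖w q‖ ^ 2 ≤ 3 * ‖x q‖ ^ 2 + 3 * ‖y q‖ ^ 2 + 3 * ‖z q‖ ^ 2
  have h1 : ‖w q‖ ≤ ‖x q‖ + ‖y q‖ + ‖z q‖ := by
    rw [hw q]
    exact norm_add₃_le
  have h2 : ‖w q‖ ^ 2 ≤ (‖x q‖ + ‖y q‖ + ‖z q‖) ^ 2 := pow_le_pow_left₀ (norm_nonneg _) h1 2
  nlinarith [sq_nonneg (‖x q‖ - ‖y q‖), sq_nonneg (‖y q‖ - ‖z q‖), sq_nonneg (‖x q‖ - ‖z q‖)]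

theorem ALIN_proof (h1 : ALON_stmt) (h2 : ALB0_stmt) (h3 : ATSD_stmt) (h4 : AUMD_stmt) (h5 : AQAD_stmt) (h6 : AQSD_stmt) (h7 : ADMD_stmt) (h8 : AMVI_stmt) (h9 : AFDD_stmt) : ALIN_stmt := by
  intro d Γ _ _ K k B r0 χ hK hPU
  obtain ⟨Ca, C1, hCa, hC1, H1⟩ := h1 d Γ K k B r0 χ hK hPU
  obtain ⟨Cb, hCb, H2⟩ := h2 d Γ K k B r0 χ hK hPU
  obtain ⟨Cc, hCc, H3⟩ := h3 d Γ K k B r0 χ hK hPU
  obtain ⟨Cd, hCd, H4⟩ := h4 d Γ K k B r0 χ hK hPU
  obtain ⟨Cf, hCf, H9⟩ := h9 d Γ K k B r0 χ hK hPU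
  have hlog : 0 ≤ Real.log C1 := Real.log_nonneg hC1
  obtain ⟨C, hC⟩ : ∃ C : ℝ, C = Ca * (Real.log C1 + 1) + Ca + Cb + Cc + Cd + Cf + 16 := ⟨_, rfl⟩
  have hCal : 0 ≤ Ca * (Real.log C1 + 1) := by positivity
  have hCpos : 0 < C := by linarith
  refine ⟨C, by linarith, ?_⟩
  intro ch A ζ2 hch hA hz2 he2 hζ
  have hz0 := hA.z
  have hz1 : 0 < A.z1 := lt_of_lt_of_le (mul_pos hCpos hz0) hA.z1
  have hζ2 : 0 < ζ2 := by linarith
  have hzz : A.z ≤ A.z1 := by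
    have := hA.z1
    nlinarith
  have hle : ∀ c : ℝ, c ≤ C → c * ζ2 ≤ 1 := fun c hc => (mul_le_mul_of_nonneg_right hc hζ2.le).trans hζ
  have hz8 : A.z ≤ 1 / 8 := by
    have := hle 16 (by linarith)
    linarith
  set e : ℝ := A.e2 * (Real.log C1 + 1) with he
  have he0 : 0 ≤ e := mul_nonneg hA.e2.le (by linarith)
  have hea : Ca * e ≤ ζ2 := by
    refine le_trans ?_ he2
    rw [he]
    have : Ca * (A.e2 * (Real.log C1 + 1)) = Ca * (Real.log C1 + 1) * A.e2 := by ring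
    rw [this]
    exact mul_le_mul_of_nonneg_right (by linarith) hA.e2.le
  obtain ⟨R1, hR1, H1⟩ := H1 ch e A.z A.z1 ζ2 hch he0 hz0 hzz hz2 hea (hle _ (by linarith))
  obtain ⟨R2, hR2, H2⟩ := H2 ch A ζ2 hch (ALIN_mono (by linarith) hCb hA) hz2 (hle _ (by linarith))
  obtain ⟨R3, hR3, H3⟩ := H3 ch A hch (ALIN_mono (by linarith) hCc hA)
  obtain ⟨R4, hR4, H4⟩ := H4 ch A hch (ALIN_mono (by linarith) hCd hA)
  obtain ⟨R5, hR5, H5⟩ := h5 d Γ K k B r0 χ ch A.z hK hPU hch hz0 hz8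
  obtain ⟨R6, hR6, H6⟩ := h6 d Γ K k B r0 χ ch A.z hK hPU hch hz0 hz8
  have hfz : Cf * A.z1 ≤ 1 := (mul_le_mul_of_nonneg_left hz2 (by linarith)).trans (hle _ (by linarith))
  obtain ⟨R9, hR9, H9⟩ := H9 ch A.z A.z1 hch hz0 hzz hfz
  -- large R
  have ev1 : ∀ᶠ R : ℝ in atTop, C1 ^ 3 ≤ R ^ A.e2 := (tendsto_rpow_atTop hA.e2).eventually_ge_atTop _
  have ev2 : ∀ᶠ R : ℝ in atTop, (24 : ℝ) ≤ R ^ (ζ2 / 2) := (tendsto_rpow_atTop (by linarith)).eventually_ge_atTop _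
  obtain ⟨Re, hRe⟩ := eventually_atTop.1 (ev1.and ev2)
  refine ⟨max (max (max (max R1 R2) (max R3 R4)) (max (max R5 R6) R9)) (max Re 1), le_max_of_le_right (le_max_right _ _), ?_⟩
  intro R G Φ y j κ hR hO hy hj hκ
  have gmax : max (max R1 R2) (max R3 R4) ≤ R := ((le_max_left _ _).trans (le_max_left _ _)).trans hR
  have gmax' : max (max R5 R6) R9 ≤ R := ((le_max_right _ _).trans (le_max_left _ _)).trans hR
  have g1 : R1 ≤ R := ((le_max_left _ _).trans (le_max_left _ _)).trans gmax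
  have g2 : R2 ≤ R := ((le_max_right _ _).trans (le_max_left _ _)).trans gmax
  have g3 : R3 ≤ R := ((le_max_left _ _).trans (le_max_right _ _)).trans gmax
  have g4 : R4 ≤ R := ((le_max_right _ _).trans (le_max_right _ _)).trans gmax
  have g5 : R5 ≤ R := ((le_max_left _ _).trans (le_max_left _ _)).trans gmax'
  have g6 : R6 ≤ R := ((le_max_right _ _).trans (le_max_left _ _)).trans gmax'
  have g9 : R9 ≤ R := (le_max_right _ _).trans gmax'
  have gRe : Re ≤ R := ((le_max_left _ _).trans (le_max_right _ _)).trans hR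
  have hR1' : (1 : ℝ) ≤ R := ((le_max_right _ _).trans (le_max_right _ _)).trans hR
  have hR0 : 0 < R := by linarith
  obtain ⟨ev1, ev2⟩ := hRe R gRe
  have hDm : Dm (⊥ : Subgroup Γ) (univ : Set (V d)) (univ : Set Γ) := Or.inr ⟨rfl, rfl, rfl⟩
  obtain ⟨-, -, -, hli, hgw, -⟩ := h7 d Γ K k B G hK hO.cls
  obtain ⟨hGWm, -, hwin⟩ := hgw r0 2 R
  obtain ⟨-, -, -, -, hfin, -⟩ := h8 d Γ K k B G hK hO.cls
  obtain ⟨kus, kusn, kst, -, kop, kcm, -⟩ := H4 R G Φ g4 hO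
  obtain ⟨qc, qs, -, -, -, -, hQ⟩ := H6 R G g6 hO.cls
  obtain ⟨hQF, -, -⟩ := hQ ⊥ univ univ hDm
  obtain ⟨hQA, -⟩ := H5 R G g5 hO.cls ⊥ univ univ hDm
  have hint := fun w (hw : FP (⊥ : Subgroup Γ) univ w) => ATSD_int G r0 R ⊥ univ hli hGWm hwin (fun T' => ATSD_DT T') w hw
  -- the numbers
  set C0 : ℝ := Ca + Cb with hC0
  set D : ℝ := R ^ ((d : ℝ) - 1 / 2 + C0 * ζ2) with hD
  have hDpos : 0 < D := Real.rpow_pos_of_pos hR0 _
  -- the induction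
  have main : ∀ j : ℕ, j ≤ A.n R → ∀ κ : Γ, ‖(fch Φ κ (j + 1 : ℕ) y.2).1‖ ≤ r0 + 1 → ∃ a : ℂ, Nam Φ y (j + 1) κ a ∧
      nP G r0 univ 2 R (fun x => conj (usn G Φ r0 χ ch A R j y x) - QF G χ ch A.z R (LB G Φ χ ch A.z ζ2 R y (j + 1) κ a) x) ≤ D * 24 ^ (j + 1) := by
    intro j
    induction j with
    | zero =>
      intro _ κ hκ
      have hκ' : ‖(fch Φ κ 1 y.2).1‖ ≤ r0 + 1 := by
        have e1 : (((0 : ℕ) + 1 : ℕ) : ℝ) = 1 := by norm_num
        rw [e1] at hκ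
        exact hκ
      obtain ⟨a, ha, hb⟩ := H2 R G Φ y κ g2 hO hy hκ'
      refine ⟨a, ha, hb.trans ?_⟩
      have e2 : R ^ ((d : ℝ) - 1 / 2 + Cb * ζ2) ≤ D := Real.rpow_le_rpow_of_exponent_le hR1' (by nlinarith)
      have : D ≤ D * 24 ^ (0 + 1) := by
        rw [zero_add, pow_one]
        linarith
      exact e2.trans this
    | succ j ih =>
      intro hj κ hκ
      obtain ⟨γ, hγ⟩ := hPU.cover (Φ ((j + 1 : ℕ) : ℝ) y.2).1
      have hκ0 : ‖(fch Φ γ⁻¹ (j + 1 : ℕ) y.2).1‖ ≤ r0 + 1 := by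
        have e1 : (fch Φ γ⁻¹ (j + 1 : ℕ) y.2).1 = γ • (Φ ((j + 1 : ℕ) : ℝ) y.2).1 := by
          show (γ⁻¹)⁻¹ • (Φ ((j + 1 : ℕ) : ℝ) y.2).1 = _
          rw [inv_inv]
        rw [e1]
        linarith
      obtain ⟨a, ha, hN⟩ := ih (by omega) γ⁻¹ hκ0
      have hC1e' : C1 ^ (j + 1 + 1 + 2) ≤ R ^ e := by
        have e1 : ((j + 1 : ℕ) : ℝ) ≤ A.e2 * Real.log R := by
          have h := Nat.floor_le (mul_nonneg hA.e2.le (Real.log_nonneg hR1'))
          have h' : ((j + 1 : ℕ) : ℝ) ≤ (A.n R : ℝ) := by exact_mod_cast hj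
          exact h'.trans h
        have e2 : C1 ^ (j + 1) ≤ R ^ (A.e2 * Real.log C1) := by
          have e3 : C1 ^ (j + 1) = Real.exp (((j + 1 : ℕ) : ℝ) * Real.log C1) := by
            rw [Real.exp_nat_mul, Real.exp_log (by linarith)]
          rw [e3, Real.rpow_def_of_pos hR0]
          refine Real.exp_le_exp.2 ?_
          calc ((j + 1 : ℕ) : ℝ) * Real.log C1 ≤ A.e2 * Real.log R * Real.log C1 := mul_le_mul_of_nonneg_right e1 hlog
            _ = Real.log R * (A.e2 * Real.log C1) := by ring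
        calc C1 ^ (j + 1 + 1 + 2) = C1 ^ (j + 1) * C1 ^ 3 := by rw [← pow_add]
          _ ≤ R ^ (A.e2 * Real.log C1) * R ^ A.e2 := mul_le_mul e2 ev1 (by positivity) (by positivity)
          _ = R ^ e := by
              rw [← Real.rpow_add hR0, he]
              congr 1
              ring
      have hC1e : C1 ^ (j + 1 + 2) ≤ R ^ e := (pow_le_pow_right₀ hC1 (by omega)).trans hC1e'
      obtain ⟨hLF, hLn, -, -, -, a', ha', hE⟩ := H1 R G Φ y (j + 1) γ⁻¹ κ a g1 hO hy hC1e hκ0 hκ ha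
      refine ⟨a', ha', ?_⟩
      have hLF' : FH (⊥ : Subgroup Γ) univ (LB G Φ χ ch A.z ζ2 R y (j + 1 + 1) κ a') := by
        obtain ⟨γ', hγ'⟩ := hPU.cover (Φ ((j + 1 + 1 + 1 : ℕ) : ℝ) y.2).1
        have hκ1 : ‖(fch Φ γ'⁻¹ (j + 1 + 1 + 1 : ℕ) y.2).1‖ ≤ r0 + 1 := by
          have e1 : (fch Φ γ'⁻¹ (j + 1 + 1 + 1 : ℕ) y.2).1 = γ' • (Φ ((j + 1 + 1 + 1 : ℕ) : ℝ) y.2).1 := by
            show (γ'⁻¹)⁻¹ • (Φ ((j + 1 + 1 + 1 : ℕ) : ℝ) y.2).1 = _
            rw [inv_inv]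
          rw [e1]
          linarith
        exact (H1 R G Φ y (j + 1 + 1) κ γ'⁻¹ a' g1 hO hy hC1e' hκ hκ1 ha').1
      -- the functions
      set u : YS Γ d → ℂ := fun x => conj (usn G Φ r0 χ ch A R j y x) with hu
      set q0 : YS Γ d → ℂ := QF G χ ch A.z R (LB G Φ χ ch A.z ζ2 R y (j + 1) γ⁻¹ a) with hq0
      have hFu : FP (⊥ : Subgroup Γ) univ u := ALIN_row (kusn j) y
      have hFq : FP (⊥ : Subgroup Γ) univ q0 := (hQF _ hLF).1
      have hFd : FP (⊥ : Subgroup Γ) univ (fun x => u x - q0 x) := ATSD_sub ⊥ univ u q0 hFu hFq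
      set T : (YS Γ d → ℂ) → YS Γ d → ℂ := fun v q => ∫ x, v x * conj (us G Φ r0 χ ch A R x q) ∂mY Γ d with hT
      have hTF : ∀ v, FP (⊥ : Subgroup Γ) univ v → FP (⊥ : Subgroup Γ) univ (T v) := fun v hv =>
        (kop (us G Φ r0 χ ch A R) ⊥ univ univ v hDm kus (fun y y' h => ⟨(kst y y' h).1.1, (kst y y' h).1.2.1⟩) hv).2
      have hTi : ∀ v, FP (⊥ : Subgroup Γ) univ v → ∀ q, Integrable (fun x => v x * conj (us G Φ r0 χ ch A R x q)) (mY Γ d) := fun v hv q =>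
        ALIN_int G r0 R hli hGWm hwin hv (ALIN_col kus q) (fun x hx => (kst x q hx).1.1)
      have hTsub : ∀ q, T (fun x => u x - q0 x) q = T u q - T q0 q := by
        intro q
        show ∫ x, (u x - q0 x) * conj (us G Φ r0 χ ch A R x q) ∂mY Γ d = _
        rw [hT]
        show _ = ∫ x, u x * conj (us G Φ r0 χ ch A R x q) ∂mY Γ d - ∫ x, q0 x * conj (us G Φ r0 χ ch A R x q) ∂mY Γ d
        rw [← integral_sub (hTi u hFu q) (hTi q0 hFq q)]
        congr 1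
        funext x
        ring
      have hstep : ∀ q, conj (usn G Φ r0 χ ch A R (j + 1) y q) = T u q := by
        intro q
        rw [kcm j y q]
        show conj (∫ p, usn G Φ r0 χ ch A R j y p * us G Φ r0 χ ch A R p q ∂mY Γ d) = ∫ x, conj (usn G Φ r0 χ ch A R j y x) * conj (us G Φ r0 χ ch A R x q) ∂mY Γ d
        rw [← integral_conj]
        congr 1
        funext x
        rw [map_mul]
      set φ1 : V d → ℂ := sF G r0 R (fP G Φ χ ch A.z A.z1 R 1) q0 with hφ1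
      set φ2 : V d → ℂ := LB G Φ χ ch A.z ζ2 R y (j + 1 + 1) κ a' with hφ2
      obtain ⟨-, hreg, -⟩ := H9 R G Φ g9 hO ⊥ univ univ hDm q0 hFq
      have hF1 : FH (⊥ : Subgroup Γ) univ φ1 := (hreg 1 ⟨by norm_num, le_rfl⟩).1
      have hF12 : FH (⊥ : Subgroup Γ) univ (fun z => φ1 z - φ2 z) := by
        obtain ⟨b1, hb1⟩ := hF1.supp
        obtain ⟨b2, hb2⟩ := hLF'.supp
        refine ⟨hF1.cont.sub hLF'.cont, fun γ hγ z => by rw [Subgroup.mem_bot.1 hγ, one_smul], ⟨max b1 b2, fun z hz hne => ?_⟩⟩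
        by_cases h : φ1 z = 0
        · refine le_max_of_le_right (hb2 z hz fun h' => hne ?_)
          show φ1 z - φ2 z = 0
          rw [h, h', sub_zero]
        · exact le_max_of_le_left (hb1 z hz h)
      have hdec : ∀ q, conj (usn G Φ r0 χ ch A R (j + 1) y q) - QF G χ ch A.z R φ2 q =
          T (fun x => u x - q0 x) q + (T q0 q - QF G χ ch A.z R φ1 q) + QF G χ ch A.z R (fun z => φ1 z - φ2 z) q := by
        intro q
        have hc : Continuous fun z => Gp G χ ch A.z R q z := (qc q.1).comp (continuous_const.prodMk continuous_id)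
        rw [ALIN_QF (r0 := r0) hfin hK.smooth q hc (fun z hz => (qs q z hz).2.2) hF1.cont hLF'.cont, hstep q, hTsub q]
        ring
      obtain ⟨-, -, t3, t4⟩ := H3 R G Φ g3 hO ⊥ univ univ q0 hDm hFq
      obtain ⟨-, -, -, t4'⟩ := H3 R G Φ g3 hO ⊥ univ univ _ hDm hFd
      have hFT0 := hTF q0 hFq
      have hFQ1 := (hQF φ1 hF1).1
      have hFQ12 := (hQF _ hF12).1
      have b1 := ALIN_three G r0 R univ _ _ _ _ hdec (hint _ (hTF _ hFd)) (hint _ (ATSD_sub ⊥ univ _ _ hFT0 hFQ1)) (hint _ hFQ12)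
      -- numbers
      have hn1 : R ^ (-(1 / 5) : ℝ) ≤ 1 := Real.rpow_le_one_of_one_le_of_nonpos hR1' (by norm_num)
      have hn1' : 0 ≤ R ^ (-(1 / 5) : ℝ) := Real.rpow_nonneg hR0.le _
      have hn2 : R ^ (-(1 / 4) : ℝ) ≤ 1 := Real.rpow_le_one_of_one_le_of_nonpos hR1' (by norm_num)
      have hn2' : 0 ≤ R ^ (-(1 / 4) : ℝ) := Real.rpow_nonneg hR0.le _
      have hnn : ∀ v : YS Γ d → ℂ, 0 ≤ nP G r0 univ 2 R v := fun v => integral_nonneg fun p => by positivity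
      have hnn' : ∀ v : V d → ℂ, 0 ≤ nn G univ v := fun v => integral_nonneg fun p => by positivity
      have c1 : nP G r0 univ 2 R (T fun x => u x - q0 x) ≤ 4 * (D * 24 ^ (j + 1)) := by
        refine t4'.trans ?_
        refine mul_le_mul ?_ hN (hnn _) (by norm_num)
        nlinarith
      have c2 : nP G r0 univ 2 R (fun q => T q0 q - QF G χ ch A.z R φ1 q) ≤ 2 * D := by
        refine t3.trans ?_
        have e1 : nP G r0 univ 2 R q0 ≤ 2 * R ^ ((d : ℝ) + Ca * ζ2) := by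
          refine (hQA _ hLF).1.trans ?_
          refine mul_le_mul (by linarith) hLn (hnn' _) (by norm_num)
        have e2 : R ^ (-8 : ℝ) * (2 * R ^ ((d : ℝ) + Ca * ζ2)) = 2 * R ^ (-8 + ((d : ℝ) + Ca * ζ2)) := by
          rw [Real.rpow_add hR0 (-8 : ℝ) ((d : ℝ) + Ca * ζ2)]
          ring
        refine (mul_le_mul_of_nonneg_left e1 (Real.rpow_nonneg hR0.le _)).trans ?_
        rw [e2]
        refine mul_le_mul_of_nonneg_left ?_ (by norm_num)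
        refine Real.rpow_le_rpow_of_exponent_le hR1' ?_
        have : Ca * ζ2 ≤ C0 * ζ2 := mul_le_mul_of_nonneg_right (by linarith) hζ2.le
        linarith
      have c3 : nP G r0 (univ : Set Γ) 2 R (QF G χ ch A.z R (fun z => φ1 z - φ2 z)) ≤ 2 * D := by
        refine (hQA _ hF12).1.trans ?_
        refine mul_le_mul (by linarith) (hE.trans ?_) (hnn' _) (by norm_num)
        refine Real.rpow_le_rpow_of_exponent_le hR1' ?_
        have : Ca * ζ2 ≤ C0 * ζ2 := mul_le_mul_of_nonneg_right (by linarith) hζ2.le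
        linarith
      have hp : (1 : ℝ) ≤ 24 ^ (j + 1) := one_le_pow₀ (by norm_num)
      have hp2 : (24 : ℝ) ^ (j + 1 + 1) = 24 * 24 ^ (j + 1) := by rw [pow_succ]; ring
      refine b1.trans ?_
      rw [hp2]
      nlinarith [mul_nonneg hDpos.le (sub_nonneg.2 hp)]
  obtain ⟨a, ha, hN⟩ := main j hj κ hκ
  refine ⟨a, ha, hN.trans ?_⟩
  have e1 : ((j : ℕ) : ℝ) ≤ A.e2 * Real.log R := by
    have h := Nat.floor_le (mul_nonneg hA.e2.le (Real.log_nonneg hR1'))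
    have h' : ((j : ℕ) : ℝ) ≤ (A.n R : ℝ) := by exact_mod_cast hj
    exact h'.trans h
  have e0 : (24 : ℝ) ≤ Real.exp 4 := by
    have h1 : (2.7 : ℝ) ≤ Real.exp 1 := by linarith [Real.exp_one_gt_d9]
    have h2 : Real.exp 4 = Real.exp 1 ^ 4 := by
      rw [← Real.exp_nat_mul]
      norm_num
    rw [h2]
    calc (24 : ℝ) ≤ 2.7 ^ 4 := by norm_num
      _ ≤ Real.exp 1 ^ 4 := pow_le_pow_left₀ (by norm_num) h1 4
  have e2 : (24 : ℝ) ^ j ≤ R ^ (ζ2 / 2) := by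
    calc (24 : ℝ) ^ j ≤ Real.exp 4 ^ j := pow_le_pow_left₀ (by norm_num) e0 j
      _ = Real.exp ((j : ℝ) * 4) := (Real.exp_nat_mul 4 j).symm
      _ ≤ Real.exp (Real.log R * (ζ2 / 2)) := by
          refine Real.exp_le_exp.2 ?_
          have h16 : 16 * A.e2 ≤ ζ2 := (mul_le_mul_of_nonneg_right (by linarith) hA.e2.le).trans he2
          have hl : 0 ≤ Real.log R := Real.log_nonneg hR1'
          nlinarith [mul_nonneg hl (sub_nonneg.2 h16), mul_nonneg hA.e2.le hl]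
      _ = R ^ (ζ2 / 2) := (Real.rpow_def_of_pos hR0 _).symm
  calc D * 24 ^ (j + 1) = D * (24 ^ j * 24) := by rw [pow_succ]
    _ ≤ D * (R ^ (ζ2 / 2) * R ^ (ζ2 / 2)) := mul_le_mul_of_nonneg_left (mul_le_mul e2 ev2 (by norm_num) (Real.rpow_nonneg hR0.le _)) hDpos.le
    _ = R ^ ((d : ℝ) - 1 / 2 + C0 * ζ2 + (ζ2 / 2 + ζ2 / 2)) := by
        rw [← Real.rpow_add hR0, hD, ← Real.rpow_add hR0]
    _ ≤ R ^ ((d : ℝ) - 1 / 2 + C * ζ2) := by
        refine Real.rpow_le_rpow_of_exponent_le hR1' ?_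
        have h1 : (C0 + 1) * ζ2 ≤ C * ζ2 := mul_le_mul_of_nonneg_right (by linarith) hζ2.le
        linarith

end

end Pool.Agent.VD
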