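import Pool.Agent.helper62.VQ.SpecE

/-!
# MP_07c750 (QUE, weight 10), project VD (all dimensions), block E: ergodicity from the volume lemma and shadowing (Bowen)

Page: /team-store/VDE_helper62.md. ABSTRACT: a space `S` with an action of `Γ`, a measure, a pseudo-distance `d` and a flow `f`. RULES. Row `vde:XXX`: file `Pool/Agent/<seat>/VDE/XXX.lean`, `import Pool.Agent.helper62.VD.SpecE`, `set_option autoImplicit false`, namespace `Pool.Agent.VDE`, auxiliary lemmas prefixed `XXX_`,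
theorem `XXX_proof : XXX_stmt` (rows listed in `from` may be used as hypotheses `(h : YYY_stmt)`; `VQE.VNA_stmt` is proved: helper89/VQE/VNA.lean). No `convert`, `congr!`, `native_decide`, no double quotes, no `private`.
-/

open MeasureTheory Filter Set Topology
open scoped ENNReal

namespace Pool.Agent.VDE

noncomputable section

/-- Bowen balls -/
def BB {S : Type} (d : S → S → ℝ) (f : ℝ → S → S) (T : ℝ) (x : S) (ε : ℝ) : Set S := {y | ∀ s ∈ Icc (0 : ℝ) T, d (f s x) (f s y) ≤ ε}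

/-- flows on spaces with a group action -/
structure BF (Γ S : Type) [Group Γ] [TopologicalSpace S] [MeasurableSpace S] [MulAction Γ S] (μ : Measure S) (F0 K : Set S) (d : S → S → ℝ) (f : ℝ → S → S) : Prop where
  cnt : Countable Γ
  act : ∀ γ : Γ, Continuous (fun x : S => γ • x)
  mact : ∀ γ : Γ, MeasurePreserving (fun x : S => γ • x) μ μ
  uniq : ∀ x : S, ∃! γ : Γ, γ • x ∈ F0
  meas : MeasurableSet F0
  fin : μ F0 < ⊤
  cpt : IsCompact K ∧ F0 ⊆ K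
  dc : Continuous (Function.uncurry d)
  d0 : ∀ x y, 0 ≤ d x y
  dz : ∀ x, d x x = 0
  ds : ∀ x y, d x y = d y x
  dt : ∀ x y z, d x z ≤ d x y + d y z
  di : ∀ (γ : Γ) (x y : S), d (γ • x) (γ • y) = d x y
  dn : ∀ (x : S) (U : Set S), IsOpen U → x ∈ U → ∃ ε : ℝ, 0 < ε ∧ {y | d x y < ε} ⊆ U
  fc : ∃ n0 : ℕ, 1 ≤ n0 ∧ ∀ x : S, {γ : Γ | d (γ • x) x ≤ 1 / 2}.Finite ∧ {γ : Γ | d (γ • x) x ≤ 1 / 2}.ncard ≤ n0
  pos : ∀ U : Set S, IsOpen U → U.Nonempty → 0 < μ U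
  f0 : ∀ x, f 0 x = x
  fa : ∀ (s t : ℝ) (x : S), f (s + t) x = f s (f t x)
  fcn : Continuous (fun p : ℝ × S => f p.1 p.2)
  fe : ∀ (γ : Γ) (t : ℝ) (x : S), f t (γ • x) = γ • f t x
  fm : ∀ t : ℝ, MeasurePreserving (f t) μ μ

/-- test functions -/
structure TH (Γ S : Type) [Group Γ] [TopologicalSpace S] [MulAction Γ S] (h : S → ℝ) : Prop where
  cont : Continuous h
  inv : ∀ (γ : Γ) (x : S), h (γ • x) = h x
  bd : ∀ x, |h x| ≤ 1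

/-- time averages -/
def av {S : Type} (f : ℝ → S → S) (h : S → ℝ) (T : ℝ) (x : S) : ℝ := T⁻¹ * ∫ t in (0 : ℝ)..T, h (f t x)

/-- the mean over the fundamental domain -/
def mn {S : Type} [MeasurableSpace S] (μ : Measure S) (F0 : Set S) (h : S → ℝ) : ℝ := (∫ x in F0, h x ∂μ) / (μ F0).toReal

/-- the representative in the fundamental domain -/
def rd (Γ : Type) {S : Type} [Group Γ] [MulAction Γ S] (F0 : Set S) (x : S) : S := (Classical.epsilon (fun γ : Γ => γ • x ∈ F0) : Γ) • x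

/-- the volume lemma (from block B1): `BB (T + U) x ε'` is at least a constant times the product -/
def GV {S : Type} [MeasurableSpace S] (μ : Measure S) (d : S → S → ℝ) (f : ℝ → S → S) (ε0 : ℝ) : Prop :=
  ∀ ε' ε : ℝ, 0 < ε' → ε' ≤ ε → ε ≤ ε0 → ∃ c : ℝ, 0 < c ∧ ∀ (x : S) (T U : ℝ), 0 ≤ T → 0 ≤ U →
    ENNReal.ofReal c * (μ (BB d f T x ε) * μ (BB d f U (f T x) ε)) ≤ μ (BB d f (T + U) x ε')

/-- shadowing of pseudo-orbits (from block B1), without accumulation of the time shift on pieces of true orbits -/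
def SHB {S : Type} (d : S → S → ℝ) (f : ℝ → S → S) : Prop :=
  ∀ ε : ℝ, 0 < ε → ∃ δ : ℝ, 0 < δ ∧ ∀ (n : ℕ) (x : ℕ → S), (∀ i < n, d (f 1 (x i)) (x (i + 1)) ≤ δ) →
    ∃ (z : S) (τ : ℕ → ℝ), τ 0 = 0 ∧ (∀ i < n, |τ (i + 1) - τ i - 1| ≤ ε) ∧ (∀ i ≤ n, ∀ s ∈ Icc (0 : ℝ) 1, d (f s (x i)) (f (τ i + s) z) ≤ ε) ∧
      ∀ i j : ℕ, i ≤ j → j ≤ n → (∀ l, i ≤ l → l < j → x (l + 1) = f 1 (x l)) → |τ j - τ i - ((j : ℝ) - i)| ≤ ε

/-- gluing of two orbits -/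
def GG (Γ : Type) {S : Type} [Group Γ] [MulAction Γ S] (d : S → S → ℝ) (f : ℝ → S → S) : Prop :=
  ∀ ε : ℝ, 0 < ε → ∃ N : ℝ, 0 ≤ N ∧ ∀ (x y : S) (T U : ℝ), 0 ≤ T → 0 ≤ U → ∃ (γ : Γ) (z : S) (t : ℝ), 0 ≤ t ∧ t ≤ N ∧
    (∀ s ∈ Icc (0 : ℝ) T, d (f s x) (f s z) ≤ ε) ∧ ∀ s ∈ Icc (0 : ℝ) U, d (γ • f s y) (f (T + t + s) z) ≤ ε

/-! ## 1. Fundamental domain, uniformity -/

/-- **Row ERD** (reduction to the fundamental domain; medium; = VQE row RDM in the abstract setting: copy helper94/VQE/RDM.lean, RDMc.lean). `rd` is measurable (countably many pieces). Unfolding: `μ B = Σ_γ μ(γ⁻¹F0 ∩ B)` (exact fundamental domain) and invariance. Measure preserving: `φ` commutes with `Γ`, `μ (F0 ∩ φ⁻¹ rd⁻¹ A) = Σ_γ μ(F0 ∩ φ⁻¹γ⁻¹(A ∩ F0)) = μ(φ⁻¹(A ∩ F0)) = μ(A ∩ F0)`. -/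
def ERD_stmt : Prop := ∀ (Γ S : Type) [Group Γ] [TopologicalSpace S] [MeasurableSpace S] [BorelSpace S] [MulAction Γ S] (μ : Measure S) (F0 K : Set S) (d : S → S → ℝ) (f : ℝ → S → S), BF Γ S μ F0 K d f →
  (∀ x, rd Γ F0 x ∈ F0) ∧ (∀ (γ : Γ) x, rd Γ F0 (γ • x) = rd Γ F0 x) ∧ (∀ x ∈ F0, rd Γ F0 x = x) ∧ (∀ x, ∃ γ : Γ, rd Γ F0 x = γ • x) ∧ Measurable (rd Γ F0) ∧
  (∀ B : Set S, MeasurableSet B → ∑' γ : Γ, μ (F0 ∩ {x | γ • x ∈ B}) = μ B) ∧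
  ∀ φ : S → S, Measurable φ → (∀ (γ : Γ) x, φ (γ • x) = γ • φ x) → MeasurePreserving φ μ μ → MeasurePreserving (fun x => rd Γ F0 (φ x)) (μ.restrict F0) (μ.restrict F0)

/-- **Row EUC** (uniformity; medium). First part: otherwise `x_k ∈ K` (translate), `d (x_k) (y_k) → 0`, `|h x_k - h y_k| > η`; a subsequence converges to `x` (`K` is sequentially compact), `y_k → x` by `dn` and the triangle inequality: contradiction. Second and third part: the same for `(s, x) ↦ f s x` on `[-T, T] × K`.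
Fourth part: by the second part the set `{y | d x y < δ}` is in `BB t x ε` for `t ≤ T`; `K` is covered by finitely many `{y | d (x_i) y < δ/2}`, which are open and have positive measure, and `{y | d (x_i) y < δ/2} ⊆ {y | d x y < δ}` if `d (x_i) x < δ/2`; invariance. Fifth part: closed sets. -/
def EUC_stmt : Prop := ∀ (Γ S : Type) [Group Γ] [TopologicalSpace S] [SecondCountableTopology S] [MeasurableSpace S] [BorelSpace S] [MulAction Γ S] (μ : Measure S) (F0 K : Set S) (d : S → S → ℝ) (f : ℝ → S → S), BF Γ S μ F0 K d f →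
  (∀ h : S → ℝ, TH Γ S h → ∀ η : ℝ, 0 < η → ∃ ε : ℝ, 0 < ε ∧ ∀ x y : S, d x y ≤ ε → |h x - h y| ≤ η) ∧
  (∀ T ε : ℝ, 0 < ε → ∃ δ : ℝ, 0 < δ ∧ ∀ x y : S, d x y ≤ δ → ∀ s : ℝ, |s| ≤ T → d (f s x) (f s y) ≤ ε) ∧
  (∀ ε : ℝ, 0 < ε → ∃ δ : ℝ, 0 < δ ∧ ∀ (x : S) (s : ℝ), |s| ≤ δ → d x (f s x) ≤ ε) ∧
  (∀ T ε : ℝ, 0 < ε → ∃ c : ℝ, 0 < c ∧ ∀ (x : S) (t : ℝ), t ≤ T → ENNReal.ofReal c ≤ μ (BB d f t x ε)) ∧
  (∀ (x : S) (T ε : ℝ), IsClosed (BB d f T x ε)) ∧ (∀ (γ : Γ) (x : S) (T ε : ℝ), μ (BB d f T (γ • x) ε) = μ (BB d f T x ε)) ∧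
  ∀ (h : S → ℝ) (T : ℝ), TH Γ S h → Continuous (av f h T)

/-- **Row ESP** (separated sets; medium; from EUC). Zorn's lemma for the subsets `E ⊆ A` with the separation property (unions of chains); maximality gives the covering (with `γ = 1` for `w ∈ E`). Countable: the open sets `{y | d x y < δ}`, `x ∈ E`, `δ` from EUC (2) for `T`, `ε/2`, are pairwise disjoint (otherwise `d (f s x) (f s x') ≤ ε` for `s ∈ [0,T]`) and nonempty
(`Set.PairwiseDisjoint.countable_of_isOpen`). -/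
def ESP_stmt : Prop := ∀ (Γ S : Type) [Group Γ] [TopologicalSpace S] [SecondCountableTopology S] [MeasurableSpace S] [BorelSpace S] [MulAction Γ S] (μ : Measure S) (F0 K : Set S) (d : S → S → ℝ) (f : ℝ → S → S), BF Γ S μ F0 K d f → ∀ (T ε : ℝ) (A : Set S), 0 < ε →
  ∃ E : Set S, E ⊆ A ∧ E.Countable ∧ (∀ x ∈ E, ∀ x' ∈ E, x ≠ x' → ∀ γ : Γ, ∃ s ∈ Icc (0 : ℝ) T, ε < d (f s x) (γ • f s x')) ∧
    ∀ w ∈ A, ∃ x ∈ E, ∃ γ : Γ, ∀ s ∈ Icc (0 : ℝ) T, d (f s x) (γ • f s w) ≤ ε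

/-- **Row ECV** (measure of a cover; short-medium; from ERD, EUC). `F0 ∩ A ⊆ ⋃_(x ∈ E) ⋃_γ F0 ∩ {w | γ • w ∈ BB T x ε}`; unfolding (ERD). -/
def ECV_stmt : Prop := ∀ (Γ S : Type) [Group Γ] [TopologicalSpace S] [SecondCountableTopology S] [MeasurableSpace S] [BorelSpace S] [MulAction Γ S] (μ : Measure S) (F0 K : Set S) (d : S → S → ℝ) (f : ℝ → S → S), BF Γ S μ F0 K d f → ∀ (T ε : ℝ) (A E : Set S), E.Countable →
  (∀ w ∈ A, ∃ x ∈ E, ∃ γ : Γ, ∀ s ∈ Icc (0 : ℝ) T, d (f s x) (γ • f s w) ≤ ε) → μ (F0 ∩ A) ≤ ∑' x : E, μ (BB d f T x ε)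

/-- **Row EDJ** (measure of a disjoint union; short-medium; from ERD). `n0` from `fc`. `μ (Z i) = Σ_γ μ(F0 ∩ {x | γ • x ∈ Z i}) = ∫_F0 Σ_γ 1[γ • x ∈ Z i]`, and for fixed `x` at most `n0` elements `γ` have `γ • x ∈ Z i` (if `γ • x, γ' • x ∈ Z i` then `d ((γ'γ⁻¹) • w) w ≤ 1 / 2` for `w = γ • x`); for at most one `i` there is such a `γ`, and then `x ∈ V`. -/
def EDJ_stmt : Prop := ∀ (Γ S : Type) [Group Γ] [TopologicalSpace S] [MeasurableSpace S] [BorelSpace S] [MulAction Γ S] (μ : Measure S) (F0 K : Set S) (d : S → S → ℝ) (f : ℝ → S → S), BF Γ S μ F0 K d f → ∃ n0 : ℕ, 1 ≤ n0 ∧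
  ∀ (ι : Type) [Countable ι] (Z : ι → Set S) (V : Set S), (∀ i, MeasurableSet (Z i)) → (∀ i, ∀ w ∈ Z i, ∀ w' ∈ Z i, d w w' ≤ 1 / 2) → (∀ i j, i ≠ j → ∀ γ : Γ, ∀ w ∈ Z i, γ • w ∉ Z j) →
    MeasurableSet V → (∀ (γ : Γ) x, γ • x ∈ V ↔ x ∈ V) → (∀ i, Z i ⊆ V) → ∑' i, μ (Z i) ≤ n0 * μ (F0 ∩ V)

/-! ## 2. The mixing inequality -/

/-- **Row EMX** (mixing inequality; medium-long; from EUC, ESP, ECV, EDJ). Choose `ε ≤ min (ε0/4) (1/4)` with `|h x - h y| ≤ η` for `d x y ≤ ε` (EUC), `N` from GG for `ε/16`, `δ1` with `d x (f s x) ≤ ε/16` for `|s| ≤ δ1`. `A = {c + 2η ≤ av T}`, `B = {av U ≤ c - 2η}` (invariant), `E ⊆ A`, `F ⊆ B` from ESP for `(T, ε)`, `(U, ε)`. For `(x, y) ∈ E × F`: `γ, z, t` from GG,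
`t̄ = ⌊t/δ1⌋ δ1`, `Z = BB (T + t + U) z (ε/16)`. (1) For `w ∈ Z`: `d (f s x) (f s w) ≤ ε/8` on `[0,T]`, `d (γ • f s y) (f (T + t̄ + s) w) ≤ ε/4` on `[0,U]`: so `w ∈ V_t̄ = {c + η ≤ av T w ∧ av U (f (T + t̄) w) ≤ c - η}`. (2) For the pairs with the same `t̄` the sets `Z` satisfy the hypotheses of EDJ: if `g1 • w1 = g2 • w2`
then `d (g1 • f s x1) (g2 • f s x2) ≤ ε/4` on `[0,T]`, so `x1 = x2` by the separation, and `d (g1 γ1 • f s y1) (g2 γ2 • f s y2) ≤ ε/2` on `[0,U]`, so `y1 = y2`. (3) `μ Z ≥ c1 μ(BB T x ε) μ(BB U y ε)`: GV for `(z, T, t + U)`, `ε' = ε/16`, `2ε`: `BB T x ε ⊆ BB T z (2ε)`; GV for `(f T z, t, U)`, `ε' = 2ε`, `2ε`: `μ(BB t (f T z) (2ε)) ≥ c_N` (EUC (4)), `BB U (γ • y) ε ⊆ BB U (f (T + t) z) (2ε)`.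
Sum over all pairs (`t̄` takes at most `N/δ1 + 1` values): `c1 μ(F0 ∩ A) μ(F0 ∩ B) ≤ c1 Σ Σ ≤ Σ_t̄ n0 μ(F0 ∩ V_t̄)` (ECV, EDJ); take the largest term. -/
def EMX_stmt : Prop := ∀ (Γ S : Type) [Group Γ] [TopologicalSpace S] [SecondCountableTopology S] [MeasurableSpace S] [BorelSpace S] [MulAction Γ S] (μ : Measure S) (F0 K : Set S) (d : S → S → ℝ) (f : ℝ → S → S) (ε0 : ℝ), BF Γ S μ F0 K d f → 0 < ε0 → GV μ d f ε0 → GG Γ d f →
  ∀ (h : S → ℝ) (η : ℝ), TH Γ S h → 0 < η → ∃ C N : ℝ, 0 < C ∧ 0 ≤ N ∧ ∀ c T U : ℝ, 0 < T → 0 < U → ∃ t : ℝ, 0 ≤ t ∧ t ≤ N ∧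
    μ (F0 ∩ {x | c + 2 * η ≤ av f h T x}) * μ (F0 ∩ {x | av f h U x ≤ c - 2 * η}) ≤ ENNReal.ofReal C * μ (F0 ∩ {x | c + η ≤ av f h T x ∧ av f h U (f (T + t) x) ≤ c - η})

/-! ## 3. Ergodicity -/

/-- **Row EVN** (mean ergodic theorem on the quotient; medium; from VQE.VNA, ERD; compare helper87/VQE/VNE.lean). `T = rd ∘ f 1`, `S = rd ∘ f (-1)` on `μ.restrict F0` and `H x = ∫_0^1 h (f s x) ds`; extend `u` by `u (rd x)`; replace `u` by `max (-1) (min 1 u)` (as `|av n| ≤ 1` this does not increase `|av n - u|`). `u ∘ f t = u` a.e.: `|av n (f t x) - av n x| ≤ 2|t|/n`, and `∫_F0 (av n (f t x) - u (f t x))² → 0` (ERD for `φ = f t`). -/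
def EVN_stmt : Prop := ∀ (Γ S : Type) [Group Γ] [TopologicalSpace S] [SecondCountableTopology S] [MeasurableSpace S] [BorelSpace S] [MulAction Γ S] (μ : Measure S) (F0 K : Set S) (d : S → S → ℝ) (f : ℝ → S → S), BF Γ S μ F0 K d f → ∀ h : S → ℝ, TH Γ S h →
  ∃ u : S → ℝ, Measurable u ∧ (∀ x, |u x| ≤ 1) ∧ (∀ (γ : Γ) x, u (γ • x) = u x) ∧ (∀ t : ℝ, ∀ᵐ x ∂μ, u (f t x) = u x) ∧ Tendsto (fun n : ℕ => ∫ x in F0, (av f h n x - u x) ^ 2 ∂μ) atTop (𝓝 0)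

/-- **Row EER** (ergodicity; medium; from ERD, EUC, EVN, EMX). If `u` is not constant a.e. on `F0` there are `c`, `η > 0` with `a = μ(F0 ∩ {u ≥ c + 3η}) > 0`, `b = μ(F0 ∩ {u ≤ c - 3η}) > 0` (rational `c`, `η`). `β_n = μ(F0 ∩ {|av n - u| ≥ η}) → 0` (Chebyshev). For large `n`: `μ(F0 ∩ {c + 2η ≤ av n}) ≥ a/2`, `μ(F0 ∩ {av n ≤ c - 2η}) ≥ b/2`. EMX with `T = U = n`: on the set on the right
`av n x - av n (f (n + t) x) ≥ 2η`, so `|av n x - u x| ≥ η` or `|av n (f (n+t) x) - u (f (n+t) x)| ≥ η` (as `u (f (n+t) x) = u x` a.e.), and by ERD (`φ = f (n+t)`, all functions are invariant) its measure is at most `2 β_n`: contradiction. So `u = c0` a.e., `∫_F0 av n = ∫_F0 h` (Fubini, ERD), `c0 = mn`. -/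
def EER_stmt : Prop := ∀ (Γ S : Type) [Group Γ] [TopologicalSpace S] [SecondCountableTopology S] [MeasurableSpace S] [BorelSpace S] [MulAction Γ S] (μ : Measure S) (F0 K : Set S) (d : S → S → ℝ) (f : ℝ → S → S) (ε0 : ℝ), BF Γ S μ F0 K d f → 0 < ε0 → GV μ d f ε0 → GG Γ d f →
  ∀ h : S → ℝ, TH Γ S h → Tendsto (fun n : ℕ => ∫ x in F0, (av f h n x - mn μ F0 h) ^ 2 ∂μ) atTop (𝓝 0)

/-! ## 4. Gluing -/

/-- **Row EPR** (Poincaré recurrence; short-medium; from ERD). `T = rd ∘ f 1` preserves the finite measure `μ.restrict F0`; `V = {x | ∃ γ, d (γ • p) x < δ}` is open, invariant, `μ(F0 ∩ V) > 0` (unfolding, `pos`); `MeasurePreserving.exists_mem_iterate_mem`: `x ∈ F0 ∩ V`, `T^[n] x ∈ V`, `n ≥ 1`, `T^[n] x = γ' • f n x`. Translate `x` to `w`. -/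
def EPR_stmt : Prop := ∀ (Γ S : Type) [Group Γ] [TopologicalSpace S] [MeasurableSpace S] [BorelSpace S] [MulAction Γ S] (μ : Measure S) (F0 K : Set S) (d : S → S → ℝ) (f : ℝ → S → S), BF Γ S μ F0 K d f → ∀ (p : S) (δ : ℝ), 0 < δ →
  ∃ (w : S) (n : ℕ) (γ : Γ), 1 ≤ n ∧ d p w < δ ∧ d (f n w) (γ • p) < δ

/-- a `δ`-chain of `n` unit steps from `p` to `γ • q` -/
def Chn (Γ : Type) {S : Type} [Group Γ] [MulAction Γ S] (d : S → S → ℝ) (f : ℝ → S → S) (δ : ℝ) (n : ℕ) (p q : S) : Prop :=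
  ∃ (γ : Γ) (x : ℕ → S), x 0 = p ∧ x n = γ • q ∧ ∀ i < n, d (f 1 (x i)) (x (i + 1)) < δ

/-- **Row ECT** (chain transitivity; medium; from EUC, EPR). Chains can be translated by `Γ` and concatenated. (1) `p ⇝ p` for every `δ`: EPR with a small `δ'` (`d (f 1 p) (f 1 w) < δ` for `d p w < δ'`, `δ' ≤ δ`): `p, f 1 w, .., f (n-1) w, γ • p` (`n ≥ 1`; for `n = 1`: `p, γ • p`, `d (f 1 p) (γ • p) ≤ d (f 1 p) (f 1 w) + δ'`; use `δ/2`). (2) `C = {q | p ⇝ q}` is open (move the last point) and closed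
(`q_k → q`: `p ⇝ q_k ⇝ q_k` with last jump `< δ/2`, move the last point to `q`), nonempty, so `C = S`. (3) Uniform length: `K` compact, finitely many points `c_i` whose `δ'`-balls cover `K`, chains (for `δ/2`) between the `c_i`; for `p` near `c_i`, `q` near `c_j` (after translation) change the first and the last point. -/
def ECT_stmt : Prop := ∀ (Γ S : Type) [Group Γ] [TopologicalSpace S] [SecondCountableTopology S] [PreconnectedSpace S] [MeasurableSpace S] [BorelSpace S] [MulAction Γ S] (μ : Measure S) (F0 K : Set S) (d : S → S → ℝ) (f : ℝ → S → S), BF Γ S μ F0 K d f → ∀ δ : ℝ, 0 < δ →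
  ∃ N0 : ℕ, ∀ p q : S, ∃ n : ℕ, 1 ≤ n ∧ n ≤ N0 ∧ Chn Γ d f δ n p q

/-- **Row EGL** (gluing; medium; from EUC, ECT). `ε' ≤ min (ε/2) (1/4)` with `d w (f s w) ≤ ε/2` for `|s| ≤ ε'` (EUC (3)); `δ` from SHB for `ε'`, `N0` from ECT for `δ`. Pseudo-orbit: `f i x` (`i ≤ n1 = ⌈T⌉₊`), the chain from `f n1 x` to `γ • y` (`n` steps), `f i (γ • y)` (`i ≤ ⌈U⌉₊`). `z`, `τ` from SHB. For `s = i + r ∈ [0,T]`: `d (f s x) (f (τ i + r) z) ≤ ε'`, `|τ i - i| ≤ ε'`.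
`t = τ (n1 + n) - T ∈ [0, N]`, `N = 3 + 2 N0`; for `s = i + r ∈ [0,U]`: `d (γ • f s y) (f (τ (n1 + n + i) + r) z) ≤ ε'` and `|τ (n1+n+i) - τ (n1+n) - i| ≤ ε'`. -/
def EGL_stmt : Prop := ∀ (Γ S : Type) [Group Γ] [TopologicalSpace S] [SecondCountableTopology S] [PreconnectedSpace S] [MeasurableSpace S] [BorelSpace S] [MulAction Γ S] (μ : Measure S) (F0 K : Set S) (d : S → S → ℝ) (f : ℝ → S → S), BF Γ S μ F0 K d f → SHB d f → GG Γ d f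

/-- **Row EWK** (final output; short; from EER, EGL). Chebyshev; `μ F0 < ⊤`. -/
def EWK_stmt : Prop := ∀ (Γ S : Type) [Group Γ] [TopologicalSpace S] [SecondCountableTopology S] [PreconnectedSpace S] [MeasurableSpace S] [BorelSpace S] [MulAction Γ S] (μ : Measure S) (F0 K : Set S) (d : S → S → ℝ) (f : ℝ → S → S) (ε0 : ℝ), BF Γ S μ F0 K d f → 0 < ε0 → GV μ d f ε0 → SHB d f →
  ∀ h : S → ℝ, TH Γ S h → ∀ e v0 : ℝ, 0 < e → 0 < v0 → ∃ T0 : ℕ, 1 ≤ T0 ∧ ∀ T : ℝ, T0 ≤ T → μ (F0 ∩ {x | e ≤ |av f h T x - mn μ F0 h|}) ≤ ENNReal.ofReal v0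

end

end Pool.Agent.VDE
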