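import Pool.Agent.helper80.VD.Defs
import Pool.Agent.helper62.VD.SpecE

/-!
# MP_07c750 (QUE, weight 10), project VD, block E, part 2: the geodesic flow on the unit shell, Liouville measure, the uniform weak law

The unit shell is `{p | nrm G p = 1}` in `P d = V d × V d`. RULES. Row `vde:XXX`: file `Pool/Agent/<seat>/VDE/XXX.lean`, `import Pool.Agent.helper62.VD.SpecE2`, `set_option autoImplicit false`, namespace `Pool.Agent.VDE`, auxiliary lemmas prefixed `XXX_`,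
theorem `XXX_proof : XXX_stmt` (rows listed in `from` may be used as hypotheses `(h : YYY_stmt)`). No `convert`, `congr!`, `native_decide`, no double quotes, no `private`.
-/

open MeasureTheory Filter Set Topology
open scoped ENNReal ContDiff InnerProductSpace

namespace Pool.Agent.VDE

open VD

noncomputable section

/-- the direction `(x, ξ / |ξ|)` -/
def dir {d : ℕ} (G : V d → V d →L[ℝ] V d) (p : P d) : P d := (p.1, (nrm G p)⁻¹ • p.2)

/-- the Liouville measure on the unit shell (cone measure) -/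
def liou {d : ℕ} (G : V d → V d →L[ℝ] V d) : Measure (P d) := (volume.restrict {p : P d | 0 < nrm G p ∧ nrm G p ≤ 1}).map (dir G)

/-- Bowen balls in the unit shell -/
def BS {d : ℕ} (G : V d → V d →L[ℝ] V d) (Φ : ℝ → P d → P d) (dd : P d → P d → ℝ) (T : ℝ) (x : P d) (ε : ℝ) : Set (P d) :=
  {y | nrm G y = 1 ∧ ∀ s ∈ Icc (0 : ℝ) T, dd (Φ s x) (Φ s y) ≤ ε}

/-- the volume lemma (block B3) -/
def GVD {d : ℕ} (G : V d → V d →L[ℝ] V d) (Φ : ℝ → P d → P d) (dd : P d → P d → ℝ) : Prop := ∃ ε0 : ℝ, 0 < ε0 ∧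
  ∀ ε' ε : ℝ, 0 < ε' → ε' ≤ ε → ε ≤ ε0 → ∃ c : ℝ, 0 < c ∧ ∀ (x : P d) (T U : ℝ), nrm G x = 1 → 0 ≤ T → 0 ≤ U →
    ENNReal.ofReal c * (liou G (BS G Φ dd T x ε) * liou G (BS G Φ dd U (Φ T x) ε)) ≤ liou G (BS G Φ dd (T + U) x ε')

/-- shadowing (block B3) -/
def SHBD {d : ℕ} (G : V d → V d →L[ℝ] V d) (Φ : ℝ → P d → P d) (dd : P d → P d → ℝ) : Prop :=
  ∀ ε : ℝ, 0 < ε → ∃ δ : ℝ, 0 < δ ∧ ∀ (n : ℕ) (x : ℕ → P d), (∀ i, nrm G (x i) = 1) → (∀ i < n, dd (Φ 1 (x i)) (x (i + 1)) ≤ δ) →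
    ∃ (z : P d) (τ : ℕ → ℝ), nrm G z = 1 ∧ τ 0 = 0 ∧ (∀ i < n, |τ (i + 1) - τ i - 1| ≤ ε) ∧ (∀ i ≤ n, ∀ s ∈ Icc (0 : ℝ) 1, dd (Φ s (x i)) (Φ (τ i + s) z) ≤ ε) ∧
      ∀ i j : ℕ, i ≤ j → j ≤ n → (∀ l, i ≤ l → l < j → x (l + 1) = Φ 1 (x l)) → |τ j - τ i - ((j : ℝ) - i)| ≤ ε

/-- a `Γ`-invariant distance on phase space, comparable with the coordinates near `K` -/
structure Dis (Γ : Type) {d : ℕ} [Group Γ] [MulAction Γ (V d)] (K : Set (V d)) (G : V d → V d →L[ℝ] V d) (C : ℝ) (dd : P d → P d → ℝ) : Prop where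
  cont : Continuous (Function.uncurry dd)
  nn : ∀ p q, 0 ≤ dd p q
  zero : ∀ p, dd p p = 0
  symm : ∀ p q, dd p q = dd q p
  tri : ∀ p q r, dd p r ≤ dd p q + dd q r
  inv : ∀ (γ : Γ) (p q : P d), dd (lft γ p) (lft γ q) = dd p q
  lo : ∀ p q : P d, p.1 ∈ K → nrm G p ≤ 2 → nrm G q ≤ 2 → dd p q ≤ 1 / 2 → ‖p - q‖ ≤ C * dd p q
  up : ∀ p q : P d, p.1 ∈ K → nrm G p ≤ 2 → nrm G q ≤ 2 → ‖p - q‖ ≤ 1 → dd p q ≤ C * ‖p - q‖

/-- exact fundamental domains in `K` -/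
structure FDX (Γ : Type) {d : ℕ} [Group Γ] [MulAction Γ (V d)] (K F0 : Set (V d)) : Prop where
  meas : MeasurableSet F0
  sub : F0 ⊆ K
  uniq : ∀ x : V d, ∃! γ : Γ, γ • x ∈ F0

/-- the facts about the geodesic flow which are used (block FG) -/
structure FlD (Γ : Type) {d : ℕ} [Group Γ] [MulAction Γ (V d)] (K F0 : Set (V d)) (G : V d → V d →L[ℝ] V d) (Φ : ℝ → P d → P d) (C : ℝ) (dd : P d → P d → ℝ) : Prop where
  fdk : FdK Γ K
  fdx : FDX Γ K F0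
  met : IsMetric G
  flow : IsFlow G Φ
  dis : Dis Γ K G C dd
  one : ∀ p : P d, lft (1 : Γ) p = p
  mul : ∀ (γ γ' : Γ) (p : P d), lft (γ * γ') p = lft γ (lft γ' p)
  lc : ∀ γ : Γ, Continuous (lft γ : P d → P d)
  lm : ∀ γ : Γ, MeasurePreserving (lft γ : P d → P d) volume volume
  ln : ∀ (γ : Γ) (p : P d), nrm G (lft γ p) = nrm G p
  fn : ∀ (t : ℝ) (p : P d), nrm G (Φ t p) = nrm G p
  fe : ∀ (γ : Γ) (t : ℝ) (p : P d), Φ t (lft γ p) = lft γ (Φ t p)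
  fs : ∀ (t l : ℝ) (p : P d), 0 < l → Φ t (p.1, l • p.2) = ((Φ (l * t) p).1, l • (Φ (l * t) p).2)
  fm : ∀ t : ℝ, MeasurePreserving (Φ t) volume volume

/-- time averages of functions on `M` -/
def avV {d : ℕ} (Φ : ℝ → P d → P d) (h : V d → ℝ) (T : ℝ) (p : P d) : ℝ := T⁻¹ * ∫ s in (0 : ℝ)..T, h (Φ s p).1

/-- the mean value for the Riemannian volume -/
def mnV {d : ℕ} (F0 : Set (V d)) (G : V d → V d →L[ℝ] V d) (h : V d → ℝ) : ℝ := (∫ x in F0, h x * dens G x) / ∫ x in F0, dens G x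

/-- the weak law at the time `T0` -/
def UWLD {d : ℕ} (F0 : Set (V d)) (G : V d → V d →L[ℝ] V d) (Φ : ℝ → P d → P d) (h : V d → ℝ) (e v0 T0 : ℝ) : Prop :=
  liou G {p : P d | p.1 ∈ F0 ∧ e ≤ |avV Φ h T0 p - mnV F0 G h|} ≤ ENNReal.ofReal v0

/-- test functions on `M` -/
structure THV (Γ : Type) {d : ℕ} [Group Γ] [MulAction Γ (V d)] (h : V d → ℝ) : Prop where
  cont : Continuous h
  inv : ∀ (γ : Γ) (x : V d), h (γ • x) = h x
  bd : ∀ x, |h x| ≤ 1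

/-! ## 1. The Liouville measure -/

/-- **Row SNM** (the norm; short). `IG G` is continuous (`ContinuousLinearMap.inverse` is continuous at invertible operators; `G x` is invertible: injective in finite dimension). `⟪(G x)⁻¹ ξ, ξ⟫ = ⟪v, G x v⟫` with `v = (G x)⁻¹ ξ`. Compactness: `⟪IG G x ξ, ξ⟫ ≥ c ‖ξ‖²` on the compact set (minimum over `L × sphere`). -/
def SNM_stmt : Prop := ∀ (d : ℕ) (G : V d → V d →L[ℝ] V d), IsMetric G → Continuous (nrm G : P d → ℝ) ∧ (∀ p : P d, nrm G p = 0 ↔ p.2 = 0) ∧ (∀ (x ξ : V d) (l : ℝ), nrm G ((x, l • ξ) : P d) = |l| * nrm G (x, ξ)) ∧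
  (∀ p : P d, nrm G p ≠ 0 → nrm G (dir G p) = 1) ∧ ∀ L : Set (V d), IsCompact L → ∀ M : ℝ, IsCompact {p : P d | p.1 ∈ L ∧ nrm G p ≤ M}

/-- **Row SLF** (formula; short-medium; from SNM). First part: `Measure.map_apply` (`dir` is measurable). Second part: the map `(x, ξ) ↦ (x, a ξ)` has the Jacobian `a^d` (`Measure.addHaar_preimage_smul` in the fibres, Fubini; or `Measure.prod`), it maps `{0 < nrm ≤ 1}` onto `{0 < nrm ≤ a}` and `dir` does not change; difference of two such sets. Third part: `dir p` has norm `1`. -/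
def SLF_stmt : Prop := ∀ (d : ℕ) (G : V d → V d →L[ℝ] V d), IsMetric G → (∀ A : Set (P d), MeasurableSet A → liou G A = volume {p : P d | 0 < nrm G p ∧ nrm G p ≤ 1 ∧ dir G p ∈ A}) ∧
  (∀ (A : Set (P d)) (a b : ℝ), MeasurableSet A → 0 ≤ a → a ≤ b → liou G A < ⊤ → volume {p : P d | a < nrm G p ∧ nrm G p ≤ b ∧ dir G p ∈ A} = ENNReal.ofReal (b ^ d - a ^ d) * liou G A) ∧
  liou G {p : P d | nrm G p ≠ 1} = 0

/-- **Row SLP** (positivity, finiteness; short-medium; from SNM, SLF). First part: `{p | 0 < nrm p < 1, dir p ∈ U}` is open and contains `(x, ξ/2)` for `(x, ξ) ∈ U`. Second part: `{p | p.1 ∈ L, nrm p ≤ 1}` is compact. -/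
def SLP_stmt : Prop := ∀ (d : ℕ) (G : V d → V d →L[ℝ] V d), IsMetric G → (∀ U : Set (P d), IsOpen U → (∃ p ∈ U, nrm G p = 1) → 0 < liou G U) ∧ ∀ L : Set (V d), IsCompact L → liou G {p : P d | p.1 ∈ L} < ⊤

/-- **Row SLI** (invariance; medium; from SNM, SLF, SLP). `lft γ`: `dir (lft γ p) = lft γ (dir p)` (`lft γ` is linear in `ξ`) and `lm`, `ln`. FLOW, without determinants. Let `A` be a COMPACT subset of the shell, `t ≥ 0`, `δ > 0`, `A_δ = {Φ s a | a ∈ A, t ≤ s ≤ (1 + δ) t}` (compact). By `fs`, `Φ t` maps `{p | 1 < nrm p ≤ 1 + δ, dir p ∈ A}` into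
`{p | 1 < nrm p ≤ 1 + δ, dir p ∈ A_δ}` (`Φ t (x, lξ) = (x_(lt), l ξ_(lt))`), so by `fm` and SLF (2): `((1+δ)^d - 1) liou A ≤ ((1+δ)^d - 1) liou A_δ`, `liou A ≤ liou A_δ`. `A_δ` decreases to `Φ t '' A` for `δ → 0` (compactness of `A`, continuity), so `liou A ≤ liou (Φ t '' A)` (continuity from above, `liou A_1 < ⊤`). The same for `t ≤ 0`.
Hence equality for all compact `A` in the shell (apply it to `Φ t '' A` and `-t`). Both measures `liou` and `liou.map (Φ (-t))` are finite on compact sets, so inner regular on `P d` (`σ`-compact metric space; second countable locally compact: `MeasureTheory.Measure.Regular`), both vanish outside the shell: they agree on all measurable sets. (For `d = 0` everything is trivial.) -/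
def SLI_stmt : Prop := ∀ (d : ℕ) (Γ : Type) [Group Γ] [MulAction Γ (V d)] (K F0 : Set (V d)) (G : V d → V d →L[ℝ] V d) (Φ : ℝ → P d → P d) (C : ℝ) (dd : P d → P d → ℝ), 1 ≤ d → FlD Γ K F0 G Φ C dd →
  (∀ t : ℝ, MeasurePreserving (Φ t) (liou G) (liou G)) ∧ ∀ γ : Γ, MeasurePreserving (lft γ : P d → P d) (liou G) (liou G)

/-- **Row SMG** (marginal; medium; from SNM). `⟪(G x)⁻¹ ξ, ξ⟫ ≤ 1`: with an orthonormal basis of eigenvectors of `G x` (or a positive square root `S` of `G x`, symmetric): `ξ = S w`, `‖w‖ ≤ 1`, so the volume of this set is `|det S| vol(ball) = √det (G x) vol(ball)` (`Measure.addHaar_image_linearMap`). Fubini on `P d = V d × V d`. -/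
def SMG_stmt : Prop := ∀ (d : ℕ) (G : V d → V d →L[ℝ] V d), IsMetric G → 1 ≤ d → (∀ x, 0 < dens G x) ∧ Continuous (dens G) ∧ (∀ x : V d, volume {ξ : V d | 0 < nrm G (x, ξ) ∧ nrm G (x, ξ) ≤ 1} = ENNReal.ofReal (dens G x) * volume (Metric.ball (0 : V d) 1)) ∧
  ∀ (F0 L : Set (V d)) (h : V d → ℝ), MeasurableSet F0 → IsCompact L → F0 ⊆ L → Continuous h → ∫ p in {p : P d | p.1 ∈ F0}, h p.1 ∂liou G = (volume (Metric.ball (0 : V d) 1)).toReal * ∫ x in F0, h x * dens G x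

/-- **Row SCN** (connectedness; short-medium; from SNM). The shell is the image of `V d × sphere 0 1` under the continuous map `(x, u) ↦ (x, (nrm G (x, u))⁻¹ • u)`; the sphere is connected for `d ≥ 2` (`isPreconnected_sphere`, rank `> 1`). -/
def SCN_stmt : Prop := ∀ (d : ℕ) (G : V d → V d →L[ℝ] V d), IsMetric G → 2 ≤ d → IsPreconnected {p : P d | nrm G p = 1}

/-! ## 2. The weak law for one metric -/

/-- **Row SBF** (the abstract structure; medium, many short parts; from SNM, SLP, SLI). The shell as a subtype `Sh = {p : P d // nrm G p = 1}` with the action `γ • x = ⟨lft γ x, _⟩`, the measure `(liou G).comap Subtype.val`, `f t x = ⟨Φ t x, _⟩`. `Γ` is countable (`FdK`: `V d` is σ-compact, `proper`). `fc`: translate `x` to `K` (by invariance, `d (γ • x) x` with `γ` conjugated: `lft δ (lft γ x) = lft (δγδ⁻¹) (lft δ x)`); for `x.1 ∈ K`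
`dd (lft γ x) x ≤ 1/2` gives `‖lft γ x - x‖ ≤ C/2`, so `γ • x.1` is in the compact set of points within `C/2` of `K`: finitely many `γ` (`proper`). `dn`: by invariance for `x.1 ∈ K` (`lo`; `lft γ` is a homeomorphism). `Subtype.val` is a measurable embedding (closed set), `liou` lives on the shell (SLF). -/
def SBF_stmt : Prop := ∀ (d : ℕ) (Γ : Type) [Group Γ] [MulAction Γ (V d)] (K F0 : Set (V d)) (G : V d → V d →L[ℝ] V d) (Φ : ℝ → P d → P d) (C : ℝ) (dd : P d → P d → ℝ), 1 ≤ d → FlD Γ K F0 G Φ C dd →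
  ∃ (act : MulAction Γ {p : P d // nrm G p = 1}) (f : ℝ → {p : P d // nrm G p = 1} → {p : P d // nrm G p = 1}), (∀ (γ : Γ) (x : {p : P d // nrm G p = 1}), (γ • x).1 = lft γ x.1) ∧ (∀ (t : ℝ) (x : {p : P d // nrm G p = 1}), (f t x).1 = Φ t x.1) ∧
    BF Γ {p : P d // nrm G p = 1} ((liou G).comap Subtype.val) {x | x.1.1 ∈ F0} {x | x.1.1 ∈ K} (fun x y => dd x.1 y.1) f

/-- **Row SER** (ergodicity of the geodesic flow; medium; from EWK, SBF, SCN, SLF, SMG). `H = h ∘ (base point)` is a test function `TH`; GVD and SHBD give `GV` and `SHB` on the subtype (`comap` of `BS`); `av f H T x = avV Φ h T x`, `mn = mnV` (SMG for `h` and for `1`). `liou G A = comap (val⁻¹ A)` since `liou` lives on the shell. -/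
def SER_stmt : Prop := ∀ (d : ℕ) (Γ : Type) [Group Γ] [MulAction Γ (V d)] (K F0 : Set (V d)) (G : V d → V d →L[ℝ] V d) (Φ : ℝ → P d → P d) (C : ℝ) (dd : P d → P d → ℝ), 2 ≤ d → FlD Γ K F0 G Φ C dd → GVD G Φ dd → SHBD G Φ dd →
  ∀ h : V d → ℝ, THV Γ h → ∀ e v0 : ℝ, 0 < e → 0 < v0 → ∃ T0 : ℕ, 1 ≤ T0 ∧ ∀ T : ℝ, T0 ≤ T → UWLD F0 G Φ h e v0 T

/-! ## 3. Stability -/

/-- **Row SGR** (Gronwall for two metrics; medium). The orbits `Φ t p`, `p ∈ L`, `|t| ≤ T` and all points within distance `1` of them are in a compact convex set `L'` (a ball) on which `XH G` is Lipschitz (it is smooth); `m` bounds the base points. On `L'` `‖XH G' q - XH G q‖ ≤ C s` for small `s` (`(G')⁻¹ - G⁻¹ = (G')⁻¹ (G - G') G⁻¹`, and `D(G⁻¹) = -G⁻¹ (DG) G⁻¹`).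
As long as `‖Φ' t p' - Φ t p‖ ≤ η ≤ 1` Gronwall (`dist_le_of_approx_trajectories_ODE_of_mem`) gives `≤ (s + C s T) e^(C T) < η`: continuity argument (the set of the times `t` for which the estimate holds on `[0,t]` is open and closed). -/
def SGR_stmt : Prop := ∀ (d : ℕ) (G : V d → V d →L[ℝ] V d) (Φ : ℝ → P d → P d) (L : Set (P d)) (T η : ℝ), IsMetric G → IsFlow G Φ → IsCompact L → 0 < η → ∃ (m : ℕ) (s : ℝ), 0 < s ∧ ∀ (G' : V d → V d →L[ℝ] V d) (Φ' : ℝ → P d → P d), IsMetric G' → IsFlow G' Φ' →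
  (∀ (n : ℕ) (x : V d), n ≤ 1 → ‖x‖ ≤ m → ‖iteratedFDeriv ℝ n (fun y => G y - G' y) x‖ ≤ s) → ∀ p ∈ L, ∀ p' : P d, ‖p' - p‖ ≤ s → ∀ t : ℝ, |t| ≤ T → ‖Φ' t p' - Φ t p‖ ≤ η

/-- **Row SMS** (stability of norms and means; medium; from SNM). On a compact set of base points `‖G' x - G x‖ ≤ s` gives `(1 - η) nrm G ≤ nrm G' ≤ (1 + η) nrm G` (`⟪G x u, u⟫ ≥ c ‖u‖²`; inverse operators), `|dens G' - dens G| ≤ η` (the determinant is continuous) and the means of `h` are close. -/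
def SMS_stmt : Prop := ∀ (d : ℕ) (G : V d → V d →L[ℝ] V d) (K : Set (V d)) (η : ℝ), IsMetric G → IsCompact K → 0 < η → ∃ s : ℝ, 0 < s ∧ ∀ G' : V d → V d →L[ℝ] V d, IsMetric G' → (∀ x ∈ K, ‖G x - G' x‖ ≤ s) →
  (∀ p : P d, p.1 ∈ K → (1 - η) * nrm G p ≤ nrm G' p ∧ nrm G' p ≤ (1 + η) * nrm G p) ∧
  ∀ (F0 : Set (V d)) (h : V d → ℝ), MeasurableSet F0 → F0 ⊆ K → 0 < volume F0 → Continuous h → (∀ x, |h x| ≤ 1) → |mnV F0 G' h - mnV F0 G h| ≤ η * (1 + (∫ x in F0, dens G x)⁻¹)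

/-- **Row SFN** (final row: the uniform weak law is stable; medium; from SER, SNM, SLF, SGR, SMS). `T0` from SER for `e/2`, `v0/2^d`. For `q` with `0 < nrm G' q ≤ 1`, `q.1 ∈ F0`: `nrm G q ≤ 2`, `‖dir G' q - dir G q‖` small (SMS, `dir G q` is in a compact set), so `‖Φ' t (dir G' q) - Φ t (dir G q)‖ ≤ η` for `t ≤ T0` (SGR) and `|h (Φ' t ..).1 - h (Φ t ..).1| ≤ e/8`
(uniform continuity of `h` on a compact set), so `|avV Φ' h T0 (dir G' q) - avV Φ h T0 (dir G q)| ≤ e/8`, `|mnV F0 G' h - mnV F0 G h| ≤ e/8`. So `{q | 0 < nrm G' q ≤ 1, q.1 ∈ F0, e ≤ |avV Φ' h T0 (dir G' q) - mnV F0 G' h|} ⊆ {q | 0 < nrm G q ≤ 2, q.1 ∈ F0, e/2 ≤ |avV Φ h T0 (dir G q) - mnV F0 G h|}`, whose volume is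
`2^d liou G {..} ≤ v0` (SLF). (`0 < volume F0`: otherwise `volume = 0` as `Γ F0 = V d` and smooth maps preserve null sets; if `volume F0 = 0` then the measure in question is `0`.) -/
def SFN_stmt : Prop := ∀ (d : ℕ) (Γ : Type) [Group Γ] [MulAction Γ (V d)] (K F0 : Set (V d)) (G : V d → V d →L[ℝ] V d) (Φ : ℝ → P d → P d) (C : ℝ) (dd : P d → P d → ℝ), 2 ≤ d → FlD Γ K F0 G Φ C dd → GVD G Φ dd → SHBD G Φ dd →
  ∀ h : V d → ℝ, THV Γ h → ∀ e v0 : ℝ, 0 < e → 0 < v0 → ∃ (T0 m : ℕ) (s : ℝ), 1 ≤ T0 ∧ 0 < s ∧ ∀ (G' : V d → V d →L[ℝ] V d) (Φ' : ℝ → P d → P d), IsMetric G' → IsFlow G' Φ' →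
    (∀ (n : ℕ) (x : V d), n ≤ 1 → ‖x‖ ≤ m → ‖iteratedFDeriv ℝ n (fun y => G y - G' y) x‖ ≤ s) → UWLD F0 G' Φ' h e v0 T0

end

end Pool.Agent.VDE
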