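import Pool.Agent.helper1.VD.AWEQ
import Pool.Agent.helper14.VD.ABMR
import Pool.Agent.helper14.VD.AVOL
import Pool.Agent.helper18.VD.ALEP
import Pool.Agent.helper18.VD.AWPX
import Pool.Agent.helper2.VD.ALST
import Pool.Agent.helper24.VD.AWRB
import Pool.Agent.helper26.VD.ABMP
import Pool.Agent.helper26.VD.AOVD
import Pool.Agent.helper27.VD.AWE2
import Pool.Agent.helper29.VD.ALWT
import Pool.Agent.helper3.VD.AFDD
import Pool.Agent.helper31.VD.AGRD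
import Pool.Agent.helper31.VD.APKC
import Pool.Agent.helper32.VD.AMVI
import Pool.Agent.helper32.VD.AWP1
import Pool.Agent.helper33.VD.ABMA
import Pool.Agent.helper33.VD.AFMD
import Pool.Agent.helper33.VD.AWDT
import Pool.Agent.helper33.VD.AWE1
import Pool.Agent.helper34.VD.AULD
import Pool.Agent.helper34.VD.AWLN
import Pool.Agent.helper34.VD.AWPK
import Pool.Agent.helper34.VD.AWQF
import Pool.Agent.helper35.VD.AUSD
import Pool.Agent.helper38.VD.AFOD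
import Pool.Agent.helper45.VD.ALSY
import Pool.Agent.helper46.VD.AWXH
import Pool.Agent.helper48.VD.ALFX
import Pool.Agent.helper49.VD.AEND
import Pool.Agent.helper5.VD.AWP3
import Pool.Agent.helper5.VD.AWSY
import Pool.Agent.helper51.VD.AWRG
import Pool.Agent.helper57.VD.ASAD
import Pool.Agent.helper59.VD.APUE
import Pool.Agent.helper65.VD.AWP2
import Pool.Agent.helper71.VD.ALPN
import Pool.Agent.helper71.VD.ATND
import Pool.Agent.helper72.VD.ACNF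
import Pool.Agent.helper72.VD.AHLD
import Pool.Agent.helper73.VD.AMAD
import Pool.Agent.helper73.VD.ATSD
import Pool.Agent.helper75.VD.AWAM
import Pool.Agent.helper78.VD.AFBD
import Pool.Agent.helper79.VD.AUMD
import Pool.Agent.helper79.VD.AWYT
import Pool.Agent.helper83.VD.ADMD
import Pool.Agent.helper83.VD.AWMT
import Pool.Agent.helper87.VD.AFSD
import Pool.Agent.helper89.VD.ASGF
import Pool.Agent.helper9.VD.AFRD
import Pool.Agent.helper94.VD.ANSD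
import Pool.Agent.helper97.VD.AWCT
import Pool.Agent.helper97.VD.AWR3
import Pool.Agent.helper62.VD.AI4D
import Pool.Agent.helper47.VD.AllA1
import Pool.Agent.helper80.VD.AllF
import Pool.Agent.helper73.VQ.VSH

/-!
# Project VD (MP_07c750_an), block A: ASSEMBLY (no hypotheses)
-/

set_option autoImplicit false

namespace Pool.Agent.VD

theorem AA_AMVI : AMVI_stmt := AMVI_proof F_GIN F_GLF
theorem AA_ALFX : ALFX_stmt := ALFX_proof F_GLF F_GHL F_GMP F_GUN F_GEQ F_GSY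
theorem AA_ASGF : ASGF_stmt := ASGF_proof F_GLF
theorem AA_ACNF : ACNF_stmt := ACNF_proof F_GCF F_GDB F_GLP F_GUN
theorem AA_ADMD : ADMD_stmt := ADMD_proof F_GXH F_GSC
theorem AA_AHLD : AHLD_stmt := AHLD_proof F_GIN F_GUI F_GNR
theorem AA_AQSD : AQSD_stmt := A1_AQSD AA_AMVI AA_AHLD AA_ASGF AA_ADMD
theorem AA_AISD : AISD_stmt := A1_AISD AA_AMVI AA_AHLD AA_ASGF AA_ADMD
theorem AA_AQAD : AQAD_stmt := A1_AQAD AA_AMVI AA_AHLD AA_ASGF AA_ADMD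
theorem AA_AELD : AELD_stmt := A1_AELD AA_AMVI AA_AHLD AA_ASGF AA_ADMD
theorem AA_AWYT : AWYT_stmt := AWYT_proof F_GXH F_GUN
theorem AA_AWLN : AWLN_stmt := AWLN_proof
theorem AA_AWDT : AWDT_stmt := AWDT_proof
theorem AA_AWAM : AWAM_stmt := AWAM_proof
theorem AA_AWXH : AWXH_stmt := AWXH_proof F_GIN F_GXH
theorem AA_AWMT : AWMT_stmt := AWMT_proof AA_AWYT AA_AWLN AA_AWDT AA_AWAM AA_AWXH F_GSY
theorem AA_AWRG : AWRG_stmt := AWRG_proof AA_AWMT F_GXH AA_AMVI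
theorem AA_AWCT : AWCT_stmt := AWCT_proof
theorem AA_ABMR : ABMR_stmt := ABMR_proof AA_AWRG AA_AWMT AA_AWCT AA_AHLD AA_AMVI
theorem AA_AFRD : AFRD_stmt := AFRD_proof AA_AMVI AA_ADMD AA_ACNF
theorem AA_ANSD : ANSD_stmt := ANSD_proof
theorem AA_AOVD : AOVD_stmt := AOVD_proof AA_ANSD AA_AHLD
theorem AA_APKC : APKC_stmt := APKC_proof AA_ASGF
theorem AA_AFOD : AFOD_stmt := AFOD_proof AA_AOVD AA_APKC AA_ACNF AA_ASGF AA_AMVI
theorem AA_AVOL : AVOL_stmt := AVOL_proof AA_ALFX AA_ADMD AA_ASGF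
theorem AA_AFSD : AFSD_stmt := AFSD_proof AA_AFOD AA_ADMD AA_AVOL
theorem AA_AFBD : AFBD_stmt := AFBD_proof AA_AFSD AA_AFRD AA_ADMD AA_AMVI Pool.Agent.VQ.VSH_proof
theorem AA_ABMA : ABMA_stmt := ABMA_proof AA_AWMT AA_AWLN AA_AWDT F_GSY AA_ACNF
theorem AA_AWR3 : AWR3_stmt := AWR3_proof F_GIN F_GXH AA_AWXH
theorem AA_AWEQ : AWEQ_stmt := AWEQ_proof AA_AWMT AA_AWR3 AA_AHLD F_GUN F_GXH F_GIN
theorem AA_AWSY : AWSY_stmt := AWSY_proof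
theorem AA_AWQF : AWQF_stmt := AWQF_proof AA_AWSY
theorem AA_AWPK : AWPK_stmt := AWPK_proof
theorem AA_ABRD : ABRD_stmt := A1_ABRD
theorem AA_AWP1 : AWP1_stmt := AWP1_proof AA_ABMA AA_AWEQ AA_AWCT AA_AWQF AA_AWSY AA_AWPK AA_AHLD AA_ACNF AA_ABRD
theorem AA_AWRB : AWRB_stmt := AWRB_proof AA_AHLD
theorem AA_AWE1 : AWE1_stmt := AWE1_proof AA_AWRB AA_AHLD AA_AWSY
theorem AA_AWE2 : AWE2_stmt := AWE2_proof AA_AWCT AA_AWSY AA_AHLD
theorem AA_AWPX : AWPX_stmt := AWPX_proof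
theorem AA_AWP2 : AWP2_stmt := AWP2_proof AA_ABMA AA_AWEQ AA_AWE1 AA_AWE2 AA_AWCT AA_AWQF AA_AWSY AA_AWPK AA_AWPX AA_AHLD AA_ACNF AA_AMVI
theorem AA_AWP3 : AWP3_stmt := AWP3_proof AA_ABMA AA_AWEQ AA_AWYT AA_AWMT AA_AWCT AA_AWQF AA_AWSY AA_AWPK AA_AWPX AA_AHLD AA_ACNF AA_ABRD AA_AMVI
theorem AA_ABMP : ABMP_stmt := ABMP_proof AA_AWP1 AA_AWP2 AA_AWP3 AA_AWPK
theorem AA_AFMD : AFMD_stmt := AFMD_proof AA_ABMP AA_ABMR AA_AQSD AA_ABRD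
theorem AA_APUE : APUE_stmt := APUE_proof
theorem AA_AGRD : AGRD_stmt := AGRD_proof AA_AMVI AA_APUE
theorem AA_AEND : AEND_stmt := AEND_proof AA_AGRD AA_AMVI
theorem AA_AFDD : AFDD_stmt := AFDD_proof AA_ABMR AA_AFRD AA_AFMD AA_ACNF AA_ADMD AA_AMVI
theorem AA_ASAD : ASAD_stmt := ASAD_proof AA_AEND AA_AFDD AA_AFBD AA_AFMD AA_AFRD AA_AQAD AA_AMVI AA_ADMD AA_ASGF
theorem AA_AULD : AULD_stmt := AULD_proof AA_AFOD AA_AFMD
theorem AA_AUMD : AUMD_stmt := AUMD_proof AA_AULD AA_ABMR AA_AQSD AA_ADMD AA_ALFX AA_AMVI AA_ASGF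
theorem AA_AUSD : AUSD_stmt := AUSD_proof AA_AULD AA_AVOL AA_AUMD AA_ASGF AA_ALFX
theorem AA_ATSD : ATSD_stmt := ATSD_proof AA_AULD AA_ASAD AA_AQAD AA_AUMD AA_AVOL AA_AFMD AA_AFRD AA_AQSD AA_ADMD Pool.Agent.VQ.VSH_proof AA_AMVI AA_ASGF
theorem AA_ATND : ATND_stmt := ATND_proof AA_ATSD AA_AUMD
theorem AA_ALPN : ALPN_stmt := ALPN_proof AA_AMVI AA_AHLD
theorem AA_ALEP : ALEP_stmt := ALEP_proof AA_AMVI AA_AHLD
theorem AA_ALWT : ALWT_stmt := ALWT_proof AA_ABMP AA_ABMR AA_AMVI AA_ACNF AA_ALPN AA_ALEP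
theorem AA_ALST : ALST_stmt := ALST_proof AA_ALWT AA_AEND AA_AFDD AA_AFBD AA_AFMD AA_AQAD AA_AELD AA_AQSD AA_AFRD AA_AMVI AA_ADMD AA_ASGF AA_AHLD
theorem AA_ALSY : ALSY_stmt := ALSY_proof
theorem AA_AMAD : AMAD_stmt := AMAD_proof AA_ALWT AA_AEND AA_AQAD AA_AQSD AA_ALPN AA_ALSY AA_AUMD AA_AUSD AA_ATSD AA_AFMD AA_AMVI AA_ADMD AA_ABRD
theorem AA_I4D : I4D_stmt := AI4D_proof AA_AUMD AA_AMAD

end Pool.Agent.VD
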