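import Pool.Agent.helper62.VD.AllA
import Pool.Agent.helper39.VD.ABMC
import Pool.Agent.helper45.VD.A9DD
import Pool.Agent.helper45.VD.ALDA
import Pool.Agent.helper61.VD.ALRC
import Pool.Agent.helper62.VD.ALIN
import Pool.Agent.helper66.VD.AGSD
import Pool.Agent.helper75.VD.ALCC
import Pool.Agent.helper75.VD.ALON
import Pool.Agent.helper79.VD.ALB0
import Pool.Agent.helper90.VD.ALCH
import Pool.Agent.helper90.VD.ASYD
import Pool.Agent.helper92.VD.ACTD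
import Pool.Agent.helper99.VD.ATKD

/-!
# Project VD (MP_07c750_an), block A: ASSEMBLY of the long beams, A9DD (no hypotheses)
-/

set_option autoImplicit false

namespace Pool.Agent.VD

theorem AA_ATKD : ATKD_stmt := ATKD_proof AA_ASGF AA_ALSY AA_AMVI F_GLF AA_AHLD
theorem AA_AGSD : AGSD_stmt := AGSD_proof AA_ALSY
theorem AA_ASYD : ASYD_stmt := ASYD_proof
theorem AA_ACTD : ACTD_stmt := ACTD_proof
theorem AA_ABMC : ABMC_stmt := ABMC_proof AA_ATKD AA_AGSD AA_ASYD AA_ACTD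
theorem AA_ALCH : ALCH_stmt := ALCH_proof
theorem AA_ALCC : ALCC_stmt := ALCC_proof AA_ABMA AA_ABMC AA_ALCH AA_ALFX AA_ACNF AA_ALPN AA_ALSY
theorem AA_ALDA : ALDA_stmt := ALDA_proof AA_ALCH AA_ALSY AA_ALFX AA_ASGF AA_ACNF
theorem AA_ALON : ALON_stmt := ALON_proof AA_ALST AA_ALCC AA_ALDA AA_ALSY AA_ALCH AA_ALFX AA_ABRD AA_AHLD AA_ALWT AA_AFDD AA_AQSD AA_AMVI
theorem AA_ALB0 : ALB0_stmt := ALB0_proof AA_AULD AA_AUMD AA_AQAD AA_ABMP AA_ALPN AA_ALCC AA_ALSY AA_ABRD AA_AVOL AA_ADMD AA_AMVI AA_ACNF AA_AQSD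
theorem AA_ALIN : ALIN_stmt := ALIN_proof AA_ALON AA_ALB0 AA_ATSD AA_AUMD AA_AQAD AA_AQSD AA_ADMD AA_AMVI AA_AFDD
theorem AA_ALRC : ALRC_stmt := ALRC_proof AA_ALFX AA_ASGF AA_ACNF
theorem AA_A9DD : A9DD_stmt := A9DD_proof AA_ALIN AA_ALON AA_ALRC AA_AULD AA_AUSD AA_AUMD AA_AQSD AA_AFRD AA_AFMD AA_AVOL AA_ADMD AA_AMVI AA_AQAD

end Pool.Agent.VD
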