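import Pool.Agent.helper62.VDE.AllE
import Pool.Agent.helper62.VDE.IUD
import Pool.Agent.helper80.VD.AllD
import Pool.Agent.helper82.VD.AllH
import Pool.Agent.helper82.VDG.GSD
import Pool.Agent.helper29.VDG.GUE

/-!
# Project VD (MP_07c750_an): the uniform weak law `IUWD_stmt` (blocks B1, B3, D, E, F), with the single input `SCL`
-/

set_option autoImplicit false

namespace Pool.Agent.VD

/-- the facts about the flow -/
theorem I_FLD : VDE.FLD_stmt := fun d Γ _ _ K k B χ hK hχ => by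
  obtain ⟨C, -, hC⟩ := D_FLD d Γ K k B χ hK hχ
  exact ⟨C, hC⟩

/-- the uniform geometry `GeU` -/
theorem I_GUE : VDG.GUE_stmt := VDG.GUE_proof F_GIN D_DPP D_DGR

/-- the volume lemma and shadowing -/
theorem I_GSD (hSCL : VDL.SCL_stmt) : VDE.GSD_stmt := VDG.GSD_proof I_GUE VDG.GFI_t I_FLD hSCL

/-- the uniform weak law -/
theorem I_IUWD (hSCL : VDL.SCL_stmt) : IUWD_stmt := VDE.IUD_proof VDE.E_SFN I_FLD (I_GSD hSCL) F_GFL D_DCT

end Pool.Agent.VD
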